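import Pool.Agent.W2helper9.AN.HSl

/-!
The dilation lemma: if an isometry `V : H → M` intertwines `T` and `T*` with a normal operator `N` and `N*` up to
Hilbert-Schmidt operators and the range of `V` has infinite codimension, then there is an almost normal `S` such
that `T ⊕ S` is normal + Hilbert-Schmidt.
-/

set_option autoImplicit false

namespace Pool.Agent.W2helper9.AN

open scoped InnerProductSpace
open ContinuousLinearMap

/-- The conclusion of Q1 for the operator `T`. -/
def Concl {H : Type} [NormedAddCommGroup H] [InnerProductSpace ℂ H] [CompleteSpace H]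
    (T : H →L[ℂ] H) : Prop :=
  ∃ S : H →L[ℂ] H, TC (star S * S - S * star S) ∧
    ∃ N11 N12 N21 N22 : H →L[ℂ] H,
      star N11 * N11 + star N21 * N21 = N11 * star N11 + N12 * star N12 ∧
      star N11 * N12 + star N21 * N22 = N11 * star N21 + N12 * star N22 ∧
      star N12 * N11 + star N22 * N21 = N21 * star N11 + N22 * star N12 ∧
      star N12 * N12 + star N22 * N22 = N21 * star N21 + N22 * star N22 ∧
      HS (T - N11) ∧ HS N12 ∧ HS N21 ∧ HS (S - N22)

/-- The quantitative conclusion of Q1 for the operator `T`: `S` is the corner `N22` of a normal operator `N`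
on `H ⊕ H` and the Hilbert-Schmidt norm of `T ⊕ S - N` is at most the square root of `R`. -/
def ConclQ {H : Type} [NormedAddCommGroup H] [InnerProductSpace ℂ H] [CompleteSpace H]
    (T : H →L[ℂ] H) (R : ℝ) : Prop :=
  ∃ S : H →L[ℂ] H, TC (star S * S - S * star S) ∧
    ∃ N11 N12 N21 N22 : H →L[ℂ] H,
      star N11 * N11 + star N21 * N21 = N11 * star N11 + N12 * star N12 ∧
      star N11 * N12 + star N21 * N22 = N11 * star N21 + N12 * star N22 ∧
      star N12 * N11 + star N22 * N21 = N21 * star N11 + N22 * star N12 ∧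
      star N12 * N12 + star N22 * N22 = N21 * star N21 + N22 * star N22 ∧
      S = N22 ∧ HS (T - N11) ∧ HS N12 ∧ HS N21 ∧
      ∀ (κ : Type) (c : HilbertBasis κ ℂ H),
        ∑' i, ‖(T - N11) (c i)‖ ^ 2 + ∑' i, ‖N12 (c i)‖ ^ 2 + ∑' i, ‖N21 (c i)‖ ^ 2 ≤ R

theorem ConclQ.concl {H : Type} [NormedAddCommGroup H] [InnerProductSpace ℂ H] [CompleteSpace H]
    {T : H →L[ℂ] H} {R : ℝ} (h : ConclQ T R) : Concl T := by
  obtain ⟨S, hS, N11, N12, N21, N22, e1, e2, e3, e4, e5, h11, h12, h21, _⟩ := h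
  refine ⟨S, hS, N11, N12, N21, N22, e1, e2, e3, e4, h11, h12, h21, ?_⟩
  rw [e5, sub_self]
  obtain ⟨ι, b, _⟩ := h12
  exact ⟨ι, b, by simp⟩

theorem ConclQ.mono {H : Type} [NormedAddCommGroup H] [InnerProductSpace ℂ H] [CompleteSpace H]
    {T : H →L[ℂ] H} {R R' : ℝ} (h : ConclQ T R) (hR : R ≤ R') : ConclQ T R' := by
  obtain ⟨S, hS, N11, N12, N21, N22, e1, e2, e3, e4, e5, h11, h12, h21, hb⟩ := h
  exact ⟨S, hS, N11, N12, N21, N22, e1, e2, e3, e4, e5, h11, h12, h21, fun κ c => (hb κ c).trans hR⟩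

theorem isom_adj {H M : Type*} [NormedAddCommGroup H] [InnerProductSpace ℂ H] [CompleteSpace H]
    [NormedAddCommGroup M] [InnerProductSpace ℂ M] [CompleteSpace M] (V : H →ₗᵢ[ℂ] M) (x : H) :
    adjoint V.toContinuousLinearMap (V x) = x := by
  apply ext_inner_right ℂ
  intro y
  rw [adjoint_inner_left]
  exact V.inner_map_map x y

theorem adj_le {H M : Type*} [NormedAddCommGroup H] [InnerProductSpace ℂ H] [CompleteSpace H]
    [NormedAddCommGroup M] [InnerProductSpace ℂ M] [CompleteSpace M] (V : H →ₗᵢ[ℂ] M) (z : M) :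
    ‖adjoint V.toContinuousLinearMap z‖ ≤ ‖z‖ := by
  have h1 := (adjoint V.toContinuousLinearMap).le_opNorm z
  have h2 : ‖adjoint V.toContinuousLinearMap‖ ≤ 1 := by
    rw [LinearIsometryEquiv.norm_map]
    exact V.norm_toContinuousLinearMap_le
  nlinarith [norm_nonneg z]

theorem dilation {H M : Type} [NormedAddCommGroup H] [InnerProductSpace ℂ H] [CompleteSpace H]
    [NormedAddCommGroup M] [InnerProductSpace ℂ M] [CompleteSpace M]
    [TopologicalSpace.SeparableSpace H] [TopologicalSpace.SeparableSpace M]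
    (hH : ¬ FiniteDimensional ℂ H) (T : H →L[ℂ] H) (N : M →L[ℂ] M)
    (hN : ∀ z, adjoint N (N z) = N (adjoint N z)) (V : H →ₗᵢ[ℂ] M)
    (hinf : ¬ FiniteDimensional ℂ (LinearMap.range V.toLinearMap)ᗮ) {ι : Type} (b : HilbertBasis ι ℂ H)
    (h1 : Summable (fun i => ‖N (V (b i)) - V (T (b i))‖ ^ 2))
    (h2 : Summable (fun i => ‖adjoint N (V (b i)) - V (adjoint T (b i))‖ ^ 2)) :
    ConclQ T (2 * ∑' i, ‖N (V (b i)) - V (T (b i))‖ ^ 2 +
      ∑' i, ‖adjoint N (V (b i)) - V (adjoint T (b i))‖ ^ 2) := by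
  have : SecondCountableTopology M := UniformSpace.secondCountable_of_separable M
  set E := (LinearMap.range V.toLinearMap)ᗮ with hE
  have : CompleteSpace E := by infer_instance
  obtain ⟨R⟩ : Nonempty (H ≃ₗᵢ[ℂ] E) := exists_iso hH hinf
  set Q : H →ₗᵢ[ℂ] M := E.subtypeₗᵢ.comp R.toLinearIsometry with hQ
  have hQE : ∀ x, Q x ∈ E := fun x => (R x).2
  have hQs : ∀ z ∈ E, ∃ y, Q y = z := by
    intro z hz
    refine ⟨R.symm ⟨z, hz⟩, ?_⟩
    show ((R (R.symm ⟨z, hz⟩) : E) : M) = z
    rw [R.apply_symm_apply]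
  set P' := adjoint V.toContinuousLinearMap with hP'
  set Q' := adjoint Q.toContinuousLinearMap with hQ'
  have hPP : ∀ x, P' (V x) = x := isom_adj V
  have hQQ : ∀ x, Q' (Q x) = x := isom_adj Q
  have horth : ∀ x y, ⟪V x, Q y⟫_ℂ = 0 := by
    intro x y
    exact (Submodule.mem_orthogonal _ _).1 (hQE y) _ ⟨x, rfl⟩
  have hPQ : ∀ x, P' (Q x) = 0 := by
    intro x
    apply ext_inner_left ℂ
    intro y
    rw [hP', adjoint_inner_right, inner_zero_right]
    exact horth y x
  have hQP : ∀ x, Q' (V x) = 0 := by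
    intro x
    apply ext_inner_right ℂ
    intro y
    rw [hQ', adjoint_inner_left, inner_zero_left]
    exact horth x y
  have hc : ∀ z, V (P' z) + Q (Q' z) = z := by
    intro z
    have hz : z - V (P' z) ∈ E := by
      rw [hE, Submodule.mem_orthogonal]
      rintro _ ⟨x, rfl⟩
      show ⟪V x, z - V (P' z)⟫_ℂ = 0
      rw [inner_sub_right, V.inner_map_map, hP', adjoint_inner_right]
      simp
    obtain ⟨y, hy⟩ := hQs _ hz
    have h3 : Q' z = y := by
      have h4 : z = V (P' z) + Q y := by rw [hy]; abel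
      rw [h4, map_add, hQP, hQQ, zero_add]
    rw [h3, hy]; abel
  set Pc := V.toContinuousLinearMap with hPc
  set Qc := Q.toContinuousLinearMap with hQc
  have hPa : ∀ x, Pc x = V x := fun _ => rfl
  have hQa : ∀ x, Qc x = Q x := fun _ => rfl
  set N11 : H →L[ℂ] H := P' ∘L N ∘L Pc with hN11
  set N12 : H →L[ℂ] H := P' ∘L N ∘L Qc with hN12
  set N21 : H →L[ℂ] H := Q' ∘L N ∘L Pc with hN21
  set N22 : H →L[ℂ] H := Q' ∘L N ∘L Qc with hN22
  have s11 : star N11 = P' ∘L adjoint N ∘L Pc := by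
    rw [star_eq_adjoint, hN11, adjoint_comp, adjoint_comp, hP', adjoint_adjoint]
    rfl
  have s12 : star N12 = Q' ∘L adjoint N ∘L Pc := by
    rw [star_eq_adjoint, hN12, adjoint_comp, adjoint_comp, hP', adjoint_adjoint]
    rfl
  have s21 : star N21 = P' ∘L adjoint N ∘L Qc := by
    rw [star_eq_adjoint, hN21, adjoint_comp, adjoint_comp, hQ', adjoint_adjoint]
    rfl
  have s22 : star N22 = Q' ∘L adjoint N ∘L Qc := by
    rw [star_eq_adjoint, hN22, adjoint_comp, adjoint_comp, hQ', adjoint_adjoint]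
    rfl
  have e1 : star N11 * N11 + star N21 * N21 = N11 * star N11 + N12 * star N12 := by
    ext x
    rw [s11, s21, s12]
    show P' (adjoint N (V (P' (N (V x))))) + P' (adjoint N (Q (Q' (N (V x))))) =
      P' (N (V (P' (adjoint N (V x))))) + P' (N (Q (Q' (adjoint N (V x)))))
    rw [← map_add, ← map_add, hc, ← map_add, ← map_add, hc, hN]
  have e2 : star N11 * N12 + star N21 * N22 = N11 * star N21 + N12 * star N22 := by
    ext x
    rw [s11, s21, s22]
    show P' (adjoint N (V (P' (N (Q x))))) + P' (adjoint N (Q (Q' (N (Q x))))) =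
      P' (N (V (P' (adjoint N (Q x))))) + P' (N (Q (Q' (adjoint N (Q x)))))
    rw [← map_add, ← map_add, hc, ← map_add, ← map_add, hc, hN]
  have e3 : star N12 * N11 + star N22 * N21 = N21 * star N11 + N22 * star N12 := by
    ext x
    rw [s11, s12, s22]
    show Q' (adjoint N (V (P' (N (V x))))) + Q' (adjoint N (Q (Q' (N (V x))))) =
      Q' (N (V (P' (adjoint N (V x))))) + Q' (N (Q (Q' (adjoint N (V x)))))
    rw [← map_add, ← map_add, hc, ← map_add, ← map_add, hc, hN]
  have e4 : star N12 * N12 + star N22 * N22 = N21 * star N21 + N22 * star N22 := by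
    ext x
    rw [s12, s21, s22]
    show Q' (adjoint N (V (P' (N (Q x))))) + Q' (adjoint N (Q (Q' (N (Q x))))) =
      Q' (N (V (P' (adjoint N (Q x))))) + Q' (N (Q (Q' (adjoint N (Q x)))))
    rw [← map_add, ← map_add, hc, ← map_add, ← map_add, hc, hN]
  have g11 : ∀ i, ‖(T - N11) (b i)‖ ^ 2 ≤ ‖N (V (b i)) - V (T (b i))‖ ^ 2 := by
    intro i
    have h3 : (T - N11) (b i) = - P' (N (V (b i)) - V (T (b i))) := by
      rw [map_sub, hPP]
      show T (b i) - P' (N (V (b i))) = _
      abel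
    rw [h3, norm_neg]
    exact pow_le_pow_left₀ (norm_nonneg _) (adj_le V _) 2
  have g21 : ∀ i, ‖N21 (b i)‖ ^ 2 ≤ ‖N (V (b i)) - V (T (b i))‖ ^ 2 := by
    intro i
    have h3 : N21 (b i) = Q' (N (V (b i)) - V (T (b i))) := by
      rw [map_sub, hQP, sub_zero]
      rfl
    rw [h3]
    exact pow_le_pow_left₀ (norm_nonneg _) (adj_le Q _) 2
  have g12 : ∀ i, ‖(star N12) (b i)‖ ^ 2 ≤ ‖adjoint N (V (b i)) - V (adjoint T (b i))‖ ^ 2 := by
    intro i
    have h3 : (star N12) (b i) = Q' (adjoint N (V (b i)) - V (adjoint T (b i))) := by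
      rw [map_sub, hQP, sub_zero, s12]
      rfl
    rw [h3]
    exact pow_le_pow_left₀ (norm_nonneg _) (adj_le Q _) 2
  have l11 : Summable (fun i => ‖(T - N11) (b i)‖ ^ 2) :=
    Summable.of_nonneg_of_le (fun i => by positivity) g11 h1
  have l21 : Summable (fun i => ‖N21 (b i)‖ ^ 2) :=
    Summable.of_nonneg_of_le (fun i => by positivity) g21 h1
  have l12 : Summable (fun i => ‖(star N12) (b i)‖ ^ 2) :=
    Summable.of_nonneg_of_le (fun i => by positivity) g12 h2
  have k11 : HS (T - N11) := ⟨ι, b, l11⟩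
  have k21 : HS N21 := ⟨ι, b, l21⟩
  have k12' : HS (star N12) := ⟨ι, b, l12⟩
  have k12 : HS N12 := by
    have := k12'.star
    rwa [star_star] at this
  refine ⟨N22, ?_, N11, N12, N21, N22, e1, e2, e3, e4, rfl, k11, k12, k21, ?_⟩
  · have e5 : star N22 * N22 - N22 * star N22 = N21 * star N21 + (-star N12) * N12 := by
      rw [neg_mul, ← sub_eq_add_neg, sub_eq_sub_iff_add_eq_add]
      rw [add_comm (star N22 * N22), e4]
    rw [e5]
    have hM : ¬ FiniteDimensional ℂ M := by
      intro hM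
      exact hinf inferInstance
    obtain ⟨R0⟩ : Nonempty (M ≃ₗᵢ[ℂ] H) := exists_iso hM hH
    set W := (R0.toLinearIsometry.comp V).toContinuousLinearMap with hW
    set W' := (R0.toLinearIsometry.comp Q).toContinuousLinearMap with hW'
    refine TC.of_two k21 k21.star k12'.neg k12 W W' ?_ ?_ ?_ ?_
    · ext x
      exact isom_adj (R0.toLinearIsometry.comp V) x
    · ext x
      exact isom_adj (R0.toLinearIsometry.comp Q) x
    · ext x
      show adjoint W (W' x) = 0
      apply ext_inner_left ℂ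
      intro y
      rw [adjoint_inner_right, inner_zero_right]
      show ⟪R0 (V y), R0 (Q x)⟫_ℂ = 0
      rw [R0.inner_map_map]
      exact horth y x
    · ext x
      show adjoint W' (W x) = 0
      apply ext_inner_right ℂ
      intro y
      rw [adjoint_inner_left, inner_zero_left]
      show ⟪R0 (V x), R0 (Q y)⟫_ℂ = 0
      rw [R0.inner_map_map]
      exact horth x y
  · intro κ c
    have t1 := (hs_basis_tsum b c (T - N11) b l11).2
    have t2 := (hs_basis_tsum b c N21 b l21).2
    have t3 := hs_adj_tsum b c (star N12) l12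
    rw [star_eq_adjoint, adjoint_adjoint] at t3
    have u1 := l11.tsum_le_tsum g11 h1
    have u2 := l21.tsum_le_tsum g21 h1
    have u3 := l12.tsum_le_tsum g12 h2
    rw [star_eq_adjoint] at u3
    rw [t1, t2, t3]
    linarith

end Pool.Agent.W2helper9.AN
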