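import Mathlib

/-!
Hilbert-Schmidt operators on a complex Hilbert space: independence of the basis, adjoints, sums, products;
isometries from orthonormal families; separable infinite dimensional Hilbert spaces are isomorphic.
-/

set_option autoImplicit false
set_option linter.unusedSectionVars false

namespace Pool.Agent.W2helper9.AN

open scoped InnerProductSpace

section General

variable {H M : Type*} [NormedAddCommGroup H] [InnerProductSpace ℂ H] [CompleteSpace H]
  [NormedAddCommGroup M] [InnerProductSpace ℂ M] [CompleteSpace M]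

theorem parseval {ι : Type*} (b : HilbertBasis ι ℂ H) (x : H) :
    HasSum (fun i => ‖⟪b i, x⟫_ℂ‖ ^ 2) (‖x‖ ^ 2) := by
  have h := b.hasSum_inner_mul_inner x x
  rw [← Complex.hasSum_ofReal]
  have e1 : ((‖x‖ ^ 2 : ℝ) : ℂ) = ⟪x, x⟫_ℂ := by
    rw [inner_self_eq_norm_sq_to_K]
    push_cast
    rfl
  have e2 : (fun i => ((‖⟪b i, x⟫_ℂ‖ ^ 2 : ℝ) : ℂ)) = fun i => ⟪x, b i⟫_ℂ * ⟪b i, x⟫_ℂ := by
    funext i
    rw [← inner_conj_symm x (b i), Complex.conj_mul']
    push_cast
    rfl
  rw [e1, e2]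
  exact h

theorem hs_sum2 {ι κ : Type*} (b : HilbertBasis ι ℂ H) (c : HilbertBasis κ ℂ M) (X : H →L[ℂ] M)
    (hX : Summable (fun i => ‖X (b i)‖ ^ 2)) :
    Summable (fun p : ι × κ => ‖⟪c p.2, X (b p.1)⟫_ℂ‖ ^ 2) := by
  rw [summable_prod_of_nonneg (fun p => by positivity)]
  refine ⟨fun j => (parseval c (X (b j))).summable, ?_⟩
  refine hX.congr fun j => ?_
  exact (parseval c (X (b j))).tsum_eq.symm

theorem hs_adj {ι κ : Type*} (b : HilbertBasis ι ℂ H) (c : HilbertBasis κ ℂ M) (X : H →L[ℂ] M)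
    (hX : Summable (fun i => ‖X (b i)‖ ^ 2)) :
    Summable (fun i => ‖ContinuousLinearMap.adjoint X (c i)‖ ^ 2) := by
  have h1 := (hs_sum2 b c X hX).prod_symm
  have h2 := h1.prod
  refine h2.congr fun i => ?_
  have h3 := (parseval b (ContinuousLinearMap.adjoint X (c i))).tsum_eq
  rw [← h3]
  apply tsum_congr
  intro j
  show ‖⟪c i, X (b j)⟫_ℂ‖ ^ 2 = _
  rw [ContinuousLinearMap.adjoint_inner_right, norm_inner_symm]

theorem hs_adj_tsum {ι κ : Type*} (b : HilbertBasis ι ℂ H) (c : HilbertBasis κ ℂ M) (X : H →L[ℂ] M)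
    (hX : Summable (fun i => ‖X (b i)‖ ^ 2)) :
    ∑' i, ‖ContinuousLinearMap.adjoint X (c i)‖ ^ 2 = ∑' i, ‖X (b i)‖ ^ 2 := by
  have h := hs_sum2 b c X hX
  have e1 : ∑' i, ‖X (b i)‖ ^ 2 = ∑' i, ∑' k, ‖⟪c k, X (b i)⟫_ℂ‖ ^ 2 :=
    tsum_congr fun i => (parseval c (X (b i))).tsum_eq.symm
  have e2 : ∑' k, ‖ContinuousLinearMap.adjoint X (c k)‖ ^ 2 = ∑' k, ∑' i, ‖⟪c k, X (b i)⟫_ℂ‖ ^ 2 := by
    refine tsum_congr fun k => ?_
    rw [← (parseval b (ContinuousLinearMap.adjoint X (c k))).tsum_eq]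
    refine tsum_congr fun i => ?_
    rw [ContinuousLinearMap.adjoint_inner_right, norm_inner_symm]
  rw [e1, e2]
  exact h.tsum_comm

theorem hs_basis_tsum {ι κ : Type*} (b : HilbertBasis ι ℂ H) (c : HilbertBasis κ ℂ H) (X : H →L[ℂ] M)
    {δ : Type*} (d : HilbertBasis δ ℂ M)
    (hX : Summable (fun i => ‖X (b i)‖ ^ 2)) :
    Summable (fun i => ‖X (c i)‖ ^ 2) ∧ ∑' i, ‖X (c i)‖ ^ 2 = ∑' i, ‖X (b i)‖ ^ 2 := by
  have h1 := hs_adj b d X hX
  have h2 := hs_adj d c (ContinuousLinearMap.adjoint X) h1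
  have h3 := hs_adj_tsum d c (ContinuousLinearMap.adjoint X) h1
  rw [ContinuousLinearMap.adjoint_adjoint] at h2 h3
  exact ⟨h2, h3.trans (hs_adj_tsum b d X hX)⟩

/-- an isometry from an orthonormal family -/
theorem exists_isom {ι : Type*} (b : HilbertBasis ι ℂ H) (v : ι → M) (hv : Orthonormal ℂ v) :
    ∃ V : H →ₗᵢ[ℂ] M, ∀ i, V (b i) = v i := by
  classical
  have hO := hv.orthogonalFamily
  refine ⟨hO.linearIsometry.comp b.repr.toLinearIsometry, fun i => ?_⟩
  show hO.linearIsometry (b.repr (b i)) = v i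
  rw [b.repr_self, OrthogonalFamily.linearIsometry_apply_single]
  simp

theorem ext_basis {ι : Type*} (b : HilbertBasis ι ℂ H) (A B : H →L[ℂ] M)
    (h : ∀ i, A (b i) = B (b i)) : A = B := by
  refine ContinuousLinearMap.ext_on (s := Set.range b) ?_ ?_
  · have := b.dense_span
    rw [Submodule.dense_iff_topologicalClosure_eq_top]
    exact this
  · rintro _ ⟨i, rfl⟩
    exact h i

/-- an orthonormal family in a separable space is countable -/
theorem countable_of_orthonormal {ι : Type*} [TopologicalSpace.SeparableSpace H] (v : ι → H)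
    (hv : Orthonormal ℂ v) : Countable ι := by
  have hd : ∀ i j, i ≠ j → (1 : ℝ) ≤ dist (v i) (v j) := by
    intro i j hij
    rw [dist_eq_norm]
    have h1 : ‖v i - v j‖ ^ 2 = 2 := by
      rw [@norm_sub_sq ℂ, hv.2 hij, hv.1 i, hv.1 j]
      simp
      norm_num
    nlinarith [norm_nonneg (v i - v j)]
  have := Pairwise.countable_of_isOpen_disjoint (s := fun i => Metric.ball (v i) (1/2)) ?_ ?_ ?_
  · exact this
  · intro i j hij
    rw [Function.onFun, Set.disjoint_left]
    intro x hx hy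
    have h1 := hd i j hij
    have h2 := dist_triangle_left (v i) (v j) x
    rw [Metric.mem_ball] at hx hy
    linarith
  · intro i; exact Metric.isOpen_ball
  · intro i; exact ⟨v i, Metric.mem_ball_self (by norm_num)⟩

theorem infinite_of_basis {ι : Type*} (b : HilbertBasis ι ℂ H) (h : ¬ FiniteDimensional ℂ H) :
    Infinite ι := by
  rw [← not_finite_iff_infinite]
  intro hf
  apply h
  have : Fintype ι := Fintype.ofFinite ι
  exact (b.toOrthonormalBasis).toBasis.finiteDimensional_of_finite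

theorem iso_of_equiv {ι κ : Type*} (b : HilbertBasis ι ℂ H) (c : HilbertBasis κ ℂ M) (e : ι ≃ κ) :
    Nonempty (H ≃ₗᵢ[ℂ] M) := by
  obtain ⟨V, hV⟩ := exists_isom b (fun i => c (e i)) (c.orthonormal.comp e e.injective)
  obtain ⟨W, hW⟩ := exists_isom c (fun j => b (e.symm j)) (b.orthonormal.comp e.symm e.symm.injective)
  have h : V.toContinuousLinearMap.comp W.toContinuousLinearMap = ContinuousLinearMap.id ℂ M := by
    apply ext_basis c
    intro i
    show V (W (c i)) = c i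
    rw [hW, hV, e.apply_symm_apply]
  refine ⟨LinearIsometryEquiv.ofSurjective V (fun y => ⟨W y, ?_⟩)⟩
  exact congrArg (fun A : M →L[ℂ] M => A y) h

theorem exists_iso [TopologicalSpace.SeparableSpace H] [TopologicalSpace.SeparableSpace M]
    (h : ¬ FiniteDimensional ℂ H) (h' : ¬ FiniteDimensional ℂ M) : Nonempty (H ≃ₗᵢ[ℂ] M) := by
  obtain ⟨w, b, hb⟩ := exists_hilbertBasis ℂ H
  obtain ⟨w', b', hb'⟩ := exists_hilbertBasis ℂ M
  have h1 : Countable w := countable_of_orthonormal b b.orthonormal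
  have h2 : Countable w' := countable_of_orthonormal b' b'.orthonormal
  have h3 : Infinite w := infinite_of_basis b h
  have h4 : Infinite w' := infinite_of_basis b' h'
  obtain ⟨e1⟩ := nonempty_denumerable w
  obtain ⟨e2⟩ := nonempty_denumerable w'
  exact iso_of_equiv b b' (Denumerable.equiv₂ w w')

end General

section Endo

variable {H : Type} [NormedAddCommGroup H] [InnerProductSpace ℂ H] [CompleteSpace H]

/-- Hilbert-Schmidt operators -/
def HS (A : H →L[ℂ] H) : Prop :=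
  ∃ (ι : Type) (b : HilbertBasis ι ℂ H), Summable (fun i => ‖A (b i)‖ ^ 2)

/-- trace class operators: products of two Hilbert-Schmidt operators -/
def TC (A : H →L[ℂ] H) : Prop := ∃ B C : H →L[ℂ] H, HS B ∧ HS C ∧ A = B * C

theorem HS.star {A : H →L[ℂ] H} (h : HS A) : HS (star A) := by
  obtain ⟨ι, b, hb⟩ := h
  exact ⟨ι, b, hs_adj b b A hb⟩

theorem HS.basis {A : H →L[ℂ] H} (h : HS A) {κ : Type*} (c : HilbertBasis κ ℂ H) :
    Summable (fun i => ‖A (c i)‖ ^ 2) := by
  obtain ⟨ι, b, hb⟩ := h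
  have h1 := hs_adj b b A hb
  have h2 := hs_adj b c (ContinuousLinearMap.adjoint A) h1
  rwa [ContinuousLinearMap.adjoint_adjoint] at h2

theorem HS.of_le {A B : H →L[ℂ] H} (h : HS A) {c : ℝ} (hc : ∀ x, ‖B x‖ ≤ c * ‖A x‖) : HS B := by
  obtain ⟨ι, b, hb⟩ := h
  refine ⟨ι, b, Summable.of_nonneg_of_le (fun i => by positivity) (fun i => ?_)
    (hb.mul_left (c ^ 2))⟩
  rw [← mul_pow]
  exact pow_le_pow_left₀ (norm_nonneg _) (hc _) 2

theorem HS.mul_left {A : H →L[ℂ] H} (h : HS A) (C : H →L[ℂ] H) : HS (C * A) :=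
  h.of_le (c := ‖C‖) (fun x => C.le_opNorm (A x))

theorem HS.mul_right {A : H →L[ℂ] H} (h : HS A) (C : H →L[ℂ] H) : HS (A * C) := by
  have h1 := (h.star.mul_left (Star.star C)).star
  rwa [star_mul, star_star, star_star] at h1

theorem HS.neg {A : H →L[ℂ] H} (h : HS A) : HS (-A) :=
  h.of_le (c := 1) (fun x => by simp)

theorem HS.add {A B : H →L[ℂ] H} (h : HS A) (h' : HS B) : HS (A + B) := by
  obtain ⟨ι, b, hb⟩ := h
  refine ⟨ι, b, Summable.of_nonneg_of_le (fun i => by positivity) (fun i => ?_)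
    ((hb.mul_left 2).add ((h'.basis b).mul_left 2))⟩
  have h1 : ‖(A + B) (b i)‖ ≤ ‖A (b i)‖ + ‖B (b i)‖ := by
    rw [ContinuousLinearMap.add_apply]; exact norm_add_le _ _
  nlinarith [norm_nonneg ((A + B) (b i)), sq_nonneg (‖A (b i)‖ - ‖B (b i)‖)]

/-- the diagonal of a trace class operator is summable -/
theorem TC.diag {A : H →L[ℂ] H} (h : TC A) {κ : Type*} (c : HilbertBasis κ ℂ H) :
    Summable (fun i => ‖⟪c i, A (c i)⟫_ℂ‖) := by
  obtain ⟨B, C, hB, hC, rfl⟩ := h
  refine Summable.of_nonneg_of_le (fun i => norm_nonneg _) (fun i => ?_)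
    ((hB.star.basis c).add (hC.basis c))
  have h1 : ⟪c i, (B * C) (c i)⟫_ℂ = ⟪(Star.star B) (c i), C (c i)⟫_ℂ := by
    rw [ContinuousLinearMap.mul_apply, ContinuousLinearMap.star_eq_adjoint,
      ContinuousLinearMap.adjoint_inner_left]
  rw [h1]
  have h2 := norm_inner_le_norm (𝕜 := ℂ) ((Star.star B) (c i)) (C (c i))
  nlinarith [sq_nonneg (‖(Star.star B) (c i)‖ - ‖C (c i)‖), norm_nonneg ((Star.star B) (c i)),
    norm_nonneg (C (c i)), mul_nonneg (norm_nonneg ((Star.star B) (c i))) (norm_nonneg (C (c i)))]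

/-- sums of two products, with the help of two isometries with orthogonal ranges -/
theorem TC.of_two {B C B' C' : H →L[ℂ] H} (hB : HS B) (hC : HS C) (hB' : HS B') (hC' : HS C')
    (W W' : H →L[ℂ] H) (h1 : Star.star W * W = 1) (h2 : Star.star W' * W' = 1)
    (h3 : Star.star W * W' = 0) (h4 : Star.star W' * W = 0) : TC (B * C + B' * C') := by
  refine ⟨B * Star.star W + B' * Star.star W', W * C + W' * C', (hB.mul_right _).add (hB'.mul_right _),
    (hC.mul_left _).add (hC'.mul_left _), ?_⟩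
  have e : (B * Star.star W + B' * Star.star W') * (W * C + W' * C') =
      B * (Star.star W * W) * C + B * (Star.star W * W') * C' + B' * (Star.star W' * W) * C +
        B' * (Star.star W' * W') * C' := by noncomm_ring
  rw [e, h1, h2, h3, h4]
  simp

end Endo

end Pool.Agent.W2helper9.AN
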