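import Pool.Agent.W2helper9.AN.Two
import Pool.Agent.W2helper9.AN.Dil

/-!
Direct sums of weighted shifts.
-/

set_option autoImplicit false
set_option linter.unusedSectionVars false

namespace Pool.Agent.W2helper9.AN

open scoped InnerProductSpace ComplexConjugate
open ContinuousLinearMap

/-- With respect to the orthonormal basis `b`, the operator `T` is an orthogonal direct sum of (finite, forward,
backward or bilateral) weighted shifts: the basis vectors `b i` are placed at different points `e i` of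
countably many lines `{k} × ℤ`, and `T` maps a basis vector to a multiple of the next basis vector on its line, or
to `0` if the next point of the line is not occupied. -/
def IsShiftSum {H : Type} [NormedAddCommGroup H] [InnerProductSpace ℂ H] [CompleteSpace H]
    {ι : Type} (b : HilbertBasis ι ℂ H) (T : H →L[ℂ] H) : Prop :=
  ∃ (e : ι → ℕ × ℤ) (w : ι → ℂ), Function.Injective e ∧
    ∀ i, (∀ j, e j = ((e i).1, (e i).2 + 1) → T (b i) = w i • b j) ∧
      ((∀ j, e j ≠ ((e i).1, (e i).2 + 1)) → T (b i) = 0)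

theorem basis_ext {H : Type} [NormedAddCommGroup H] [InnerProductSpace ℂ H] [CompleteSpace H]
    {ι : Type} (b : HilbertBasis ι ℂ H) {x y : H} (h : ∀ i, ⟪b i, x⟫_ℂ = ⟪b i, y⟫_ℂ) : x = y := by
  apply b.repr.injective
  ext i
  rw [b.repr_apply_apply, b.repr_apply_apply, h]

/-- the shift of the index set -/
def sg : ℕ × ℤ ≃ ℕ × ℤ := Equiv.prodCongr (Equiv.refl ℕ) (Equiv.addRight 1)

theorem sg_apply (x : ℕ × ℤ) : sg x = (x.1, x.2 + 1) := rfl

theorem sg_symm_apply (x : ℕ × ℤ) : sg.symm x = (x.1, x.2 - 1) := rfl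

/-- the data extracted from a shift sum -/
theorem shift_data {H : Type} [NormedAddCommGroup H] [InnerProductSpace ℂ H] [CompleteSpace H]
    {ι : Type} (b : HilbertBasis ι ℂ H) (T : H →L[ℂ] H) (hT : IsShiftSum b T) :
    ∃ (e : ι → ℕ × ℤ) (W : ℕ × ℤ → ℂ), Function.Injective e ∧
      (∀ i j, e j = sg (e i) → T (b i) = W (e i) • b j) ∧
      (∀ i, (∀ j, e j ≠ sg (e i)) → T (b i) = 0) ∧
      (∀ x, W x ≠ 0 → ∃ i j, e i = x ∧ e j = sg x) := by
  classical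
  obtain ⟨e, w, he, hT⟩ := hT
  refine ⟨e, fun x => if h : ∃ i, e i = x ∧ ∃ j, e j = sg x then w h.choose else 0, he, ?_, ?_, ?_⟩
  · intro i j hij
    have h : ∃ i', e i' = e i ∧ ∃ j, e j = sg (e i) := ⟨i, rfl, j, hij⟩
    have h1 : h.choose = i := he h.choose_spec.1
    show T (b i) = (if h : ∃ i', e i' = e i ∧ ∃ j, e j = sg (e i) then w h.choose else 0) • b j
    rw [dif_pos h, h1]
    exact (hT i).1 j hij
  · intro i hi
    exact (hT i).2 hi
  · intro x hx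
    by_contra h
    apply hx
    have : ¬ ∃ i, e i = x ∧ ∃ j, e j = sg x := by
      rintro ⟨i, hi, j, hj⟩
      exact h ⟨i, j, hi, hj⟩
    simp only [dif_neg this]

section

variable {H : Type} [NormedAddCommGroup H] [InnerProductSpace ℂ H] [CompleteSpace H]
  {T : H →L[ℂ] H} {ι : Type} {b : HilbertBasis ι ℂ H} {e : ι → ℕ × ℤ} {W : ℕ × ℤ → ℂ}

theorem W_bound (h1 : ∀ i j, e j = sg (e i) → T (b i) = W (e i) • b j)
    (h3 : ∀ x, W x ≠ 0 → ∃ i j, e i = x ∧ e j = sg x) (x : ℕ × ℤ) : ‖W x‖ ≤ ‖T‖ := by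
  by_cases hx : W x = 0
  · rw [hx, norm_zero]; positivity
  · obtain ⟨i, j, rfl, hj⟩ := h3 x hx
    have h4 := T.le_opNorm (b i)
    rw [h1 i j hj, norm_smul, b.orthonormal.1, b.orthonormal.1] at h4
    simpa using h4

theorem adj_one (he : Function.Injective e) (h1 : ∀ i j, e j = sg (e i) → T (b i) = W (e i) • b j)
    (h2 : ∀ i, (∀ j, e j ≠ sg (e i)) → T (b i) = 0) {i j : ι} (hij : e j = sg (e i)) :
    adjoint T (b j) = conj (W (e i)) • b i := by
  classical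
  have ho := orthonormal_iff_ite.1 b.orthonormal
  apply basis_ext b
  intro k
  rw [adjoint_inner_right, inner_smul_right, ho k i]
  by_cases hk : ∃ l, e l = sg (e k)
  · obtain ⟨l, hl⟩ := hk
    rw [h1 k l hl, inner_smul_left, ho l j]
    by_cases hki : k = i
    · subst hki
      have : l = j := he (hl.trans hij.symm)
      simp [this]
    · have : l ≠ j := by
        rintro rfl
        exact hki (he (sg.injective (hl.symm.trans hij)))
      simp [hki, this]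
  · push Not at hk
    rw [h2 k hk, inner_zero_left]
    have : k ≠ i := by
      rintro rfl
      exact hk j hij
    simp [this]

theorem adj_two (h1 : ∀ i j, e j = sg (e i) → T (b i) = W (e i) • b j)
    (h2 : ∀ i, (∀ j, e j ≠ sg (e i)) → T (b i) = 0) {j : ι} (hj : ∀ i, e j ≠ sg (e i)) :
    adjoint T (b j) = 0 := by
  classical
  have ho := orthonormal_iff_ite.1 b.orthonormal
  apply basis_ext b
  intro k
  rw [adjoint_inner_right, inner_zero_right]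
  by_cases hk : ∃ l, e l = sg (e k)
  · obtain ⟨l, hl⟩ := hk
    rw [h1 k l hl, inner_smul_left, ho l j]
    have : l ≠ j := by
      rintro rfl
      exact hj k hl
    simp [this]
  · push Not at hk
    rw [h2 k hk, inner_zero_left]

theorem diag_sum (he : Function.Injective e) (h1 : ∀ i j, e j = sg (e i) → T (b i) = W (e i) • b j)
    (h2 : ∀ i, (∀ j, e j ≠ sg (e i)) → T (b i) = 0)
    (h3 : ∀ x, W x ≠ 0 → ∃ i j, e i = x ∧ e j = sg x)
    (hAN : TC (star T * T - T * star T)) :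
    HasSum (fun x => |‖W (sg x)‖ ^ 2 - ‖W x‖ ^ 2|)
      (∑' i, ‖⟪b i, (star T * T - T * star T) (b i)⟫_ℂ‖) := by
  have h4 := (hAN.diag b).hasSum
  have nT : ∀ i, ‖T (b i)‖ = ‖W (e i)‖ := by
    intro i
    by_cases hk : ∃ l, e l = sg (e i)
    · obtain ⟨l, hl⟩ := hk
      rw [h1 i l hl, norm_smul, b.orthonormal.1, mul_one]
    · have hW : W (e i) = 0 := by
        by_contra hW
        obtain ⟨i', j, hi', hj⟩ := h3 _ hW
        exact hk ⟨j, hj⟩
      push Not at hk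
      rw [h2 i hk, hW, norm_zero, norm_zero]
  have nT' : ∀ j, ‖adjoint T (b j)‖ = ‖W (sg.symm (e j))‖ := by
    intro j
    by_cases hk : ∃ i, e j = sg (e i)
    · obtain ⟨i, hi⟩ := hk
      rw [adj_one he h1 h2 hi, norm_smul, b.orthonormal.1, mul_one, RCLike.norm_conj, hi,
        sg.symm_apply_apply]
    · have hW : W (sg.symm (e j)) = 0 := by
        by_contra hW
        obtain ⟨i', j', hi', hj'⟩ := h3 _ hW
        rw [sg.apply_symm_apply] at hj'
        apply hk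
        refine ⟨i', ?_⟩
        rw [hi', sg.apply_symm_apply]
      push Not at hk
      rw [adj_two h1 h2 hk, hW, norm_zero, norm_zero]
  have h5 : ∀ i, ‖⟪b i, (star T * T - T * star T) (b i)⟫_ℂ‖ =
      |‖W (e i)‖ ^ 2 - ‖W (sg.symm (e i))‖ ^ 2| := by
    intro i
    have e1 : ⟪b i, (star T * T - T * star T) (b i)⟫_ℂ =
        ((‖T (b i)‖ ^ 2 - ‖adjoint T (b i)‖ ^ 2 : ℝ) : ℂ) := by
      show ⟪b i, adjoint T (T (b i)) - T (adjoint T (b i))⟫_ℂ = _
      have e2 : ⟪b i, adjoint T (T (b i))⟫_ℂ = ⟪T (b i), T (b i)⟫_ℂ := adjoint_inner_right _ _ _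
      have e3 : ⟪b i, T (adjoint T (b i))⟫_ℂ = ⟪adjoint T (b i), adjoint T (b i)⟫_ℂ :=
        (adjoint_inner_left _ _ _).symm
      rw [inner_sub_right, e2, e3, inner_self_eq_norm_sq_to_K, inner_self_eq_norm_sq_to_K]
      push_cast
      rfl
    rw [e1, nT, nT', Complex.norm_real, Real.norm_eq_abs]
  have h6 : HasSum (fun i => |‖W (e i)‖ ^ 2 - ‖W (sg.symm (e i))‖ ^ 2|)
      (∑' i, ‖⟪b i, (star T * T - T * star T) (b i)⟫_ℂ‖) := by
    have : (fun i => |‖W (e i)‖ ^ 2 - ‖W (sg.symm (e i))‖ ^ 2|) =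
      fun i => ‖⟪b i, (star T * T - T * star T) (b i)⟫_ℂ‖ := funext fun i => (h5 i).symm
    rw [this]
    exact h4
  have h7 : HasSum (fun x => |‖W x‖ ^ 2 - ‖W (sg.symm x)‖ ^ 2|)
      (∑' i, ‖⟪b i, (star T * T - T * star T) (b i)⟫_ℂ‖) := by
    refine (he.hasSum_iff ?_).1 h6
    intro x hx
    have hW : W x = 0 := by
      by_contra hW
      obtain ⟨i, _, hi, _⟩ := h3 _ hW
      exact hx ⟨i, hi⟩
    have hW' : W (sg.symm x) = 0 := by
      by_contra hW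
      obtain ⟨_, j, _, hj⟩ := h3 _ hW
      rw [sg.apply_symm_apply] at hj
      exact hx ⟨j, hj⟩
    rw [hW, hW']
    simp
  have h8 := (sg.hasSum_iff).2 h7
  have : (fun x => |‖W (sg x)‖ ^ 2 - ‖W x‖ ^ 2|) =
      (fun x => |‖W x‖ ^ 2 - ‖W (sg.symm x)‖ ^ 2|) ∘ sg := by
    funext x
    simp
  rw [this]
  exact h8

end

theorem not_fin {M : Type} [NormedAddCommGroup M] [InnerProductSpace ℂ M] (v : ℕ → M)
    (hv : Orthonormal ℂ v) : ¬ FiniteDimensional ℂ M := by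
  intro h
  have := hv.linearIndependent.finite
  exact not_finite ℕ

theorem shiftSum_concl {H : Type} [NormedAddCommGroup H] [InnerProductSpace ℂ H] [CompleteSpace H]
    [TopologicalSpace.SeparableSpace H] (hH : ¬ FiniteDimensional ℂ H) {ι : Type}
    (b : HilbertBasis ι ℂ H) (T : H →L[ℂ] H)
    (hT : IsShiftSum b T) (hAN : TC (star T * T - T * star T)) {ε : ℝ} (hε : 0 < ε) :
    ConclQ T (900 * (∑' i, ‖⟪b i, (star T * T - T * star T) (b i)⟫_ℂ‖ + ε)) := by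
  classical
  obtain ⟨e, W, he, h1, h2, h3⟩ := shift_data b T hT
  have hDs := diag_sum he h1 h2 h3 hAN
  have hD := hDs.summable
  have hWb := W_bound h1 h3
  set r : ℕ × ℤ → ℝ := fun x => ‖W x‖ with hr
  have hpr := (summable_prod_of_nonneg (fun x => abs_nonneg _)).1 hD
  have two : ∀ k : ℕ, ∃ (L : KZ →L[ℂ] KZ) (ψ : ℤ → KZ), adjoint L = L ∧ ‖L‖ ≤ ‖T‖ ∧
      (∀ q, ‖ψ q‖ = 1) ∧ ψ 0 = fz 0 ∧
      Summable (fun q => ‖L (ψ q) - (r (k, q) : ℂ) • ψ q‖ ^ 2) ∧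
      Summable (fun q => r (k, q) ^ 2 * ‖ψ (q + 1) - ψ q‖ ^ 2) ∧
      ∑' q, ‖L (ψ q) - (r (k, q) : ℂ) • ψ q‖ ^ 2 ≤
        64 * (∑' q, |r (k, q + 1) ^ 2 - r (k, q) ^ 2| + ε / 2 * (1 / 2) ^ k) ∧
      ∑' q, r (k, q) ^ 2 * ‖ψ (q + 1) - ψ q‖ ^ 2 ≤
        64 * (∑' q, |r (k, q + 1) ^ 2 - r (k, q) ^ 2| + ε / 2 * (1 / 2) ^ k) := by
    intro k
    exact two_sided (fun q => r (k, q)) (fun q => norm_nonneg _) ‖T‖ (fun q => hWb _) (hpr.1 k)
      (ε / 2 * (1 / 2) ^ k) (by positivity)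
  choose L ψ hLa hLn hψ hψ0 hF hG hFs hGs using two
  have hgeo : Summable (fun k : ℕ => 64 * (∑' q, |r (k, q + 1) ^ 2 - r (k, q) ^ 2| + ε / 2 * (1 / 2 : ℝ) ^ k)) :=
    (hpr.2.add (summable_geometric_two.mul_left (ε / 2))).mul_left 64
  have SF : Summable (fun x : ℕ × ℤ => ‖L x.1 (ψ x.1 x.2) - (r x : ℂ) • ψ x.1 x.2‖ ^ 2) := by
    rw [summable_prod_of_nonneg (fun x => by positivity)]
    exact ⟨hF, Summable.of_nonneg_of_le (fun k => tsum_nonneg fun q => by positivity) hFs hgeo⟩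
  have SG : Summable (fun x : ℕ × ℤ => r x ^ 2 * ‖ψ x.1 (x.2 + 1) - ψ x.1 x.2‖ ^ 2) := by
    rw [summable_prod_of_nonneg (fun x => by positivity)]
    exact ⟨hG, Summable.of_nonneg_of_le (fun k => tsum_nonneg fun q => by positivity) hGs hgeo⟩
  -- phases
  set u : ℕ × ℤ → ℂ := fun x => if W x = 0 then 1 else W x / ‖W x‖ with hu
  have hu1 : ∀ x, ‖u x‖ = 1 := by
    intro x
    simp only [hu]
    split_ifs with h
    · simp
    · rw [norm_div, Complex.norm_real, norm_norm]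
      exact div_self (norm_ne_zero_iff.2 h)
  have huW : ∀ x, W x = u x * (r x : ℂ) := by
    intro x
    simp only [hu, hr]
    split_ifs with h
    · simp [h]
    · have : (‖W x‖ : ℂ) ≠ 0 := by
        exact_mod_cast norm_ne_zero_iff.2 h
      field_simp
  have hBn : ∀ x : ℕ × ℤ, ‖u x • L x.1‖ ≤ ‖T‖ := by
    intro x
    rw [norm_smul, hu1, one_mul]
    exact hLn _
  have hBa : ∀ x : ℕ × ℤ, adjoint (u x • L x.1) = conj (u x) • L x.1 := by
    intro x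
    rw [map_smulₛₗ, hLa]
  set N := wop sg (fun x => u x • L x.1) ‖T‖ (norm_nonneg _) hBn with hN
  have hNn : ∀ z, adjoint N (N z) = N (adjoint N z) := by
    intro z
    apply wop_normal
    intro x k
    rw [hBa, hBa]
    show conj (u (sg x)) • L (sg x).1 (u (sg x) • L (sg x).1 k) = u x • L x.1 (conj (u x) • L x.1 k)
    rw [map_smul, map_smul, smul_smul, smul_smul, Complex.conj_mul', Complex.mul_conj', hu1, hu1]
    rfl
  -- the isometry
  have hv : Orthonormal ℂ (fun i => (lp.single 2 (e i) (ψ (e i).1 (e i).2) :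
      lp (fun _ : ℕ × ℤ => KZ) 2)) := by
    constructor
    · intro i
      rw [lp.norm_single (by norm_num), hψ]
    · intro i j hij
      rw [lp.inner_single_left, lp.single_apply_ne _ _ _ (fun h => hij (he h)), inner_zero_right]
  obtain ⟨V, hV⟩ := exists_isom b _ hv
  have hNV : ∀ i, N (V (b i)) = lp.single 2 (sg (e i)) (u (e i) • L (e i).1 (ψ (e i).1 (e i).2)) := by
    intro i
    rw [hV, hN, wop_single]
    rfl
  have hVT : ∀ i, V (T (b i)) =
      lp.single 2 (sg (e i)) (u (e i) • (r (e i) : ℂ) • ψ (e i).1 ((e i).2 + 1)) := by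
    intro i
    rw [smul_smul, ← huW]
    by_cases hk : ∃ l, e l = sg (e i)
    · obtain ⟨l, hl⟩ := hk
      rw [h1 i l hl, map_smul, hV, hl, ← lp.single_smul]
      rfl
    · have hW : W (e i) = 0 := by
        by_contra hW
        obtain ⟨i', j, hi', hj⟩ := h3 _ hW
        exact hk ⟨j, hj⟩
      push Not at hk
      rw [h2 i hk, hW, map_zero, zero_smul, lp.single_zero]
  have hN'V : ∀ i, adjoint N (V (b i)) =
      lp.single 2 (sg.symm (e i)) (conj (u (sg.symm (e i))) • L (e i).1 (ψ (e i).1 (e i).2)) := by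
    intro i
    rw [hV, hN, wop_adjoint_single, hBa]
    rfl
  have hVT' : ∀ i, V (adjoint T (b i)) = lp.single 2 (sg.symm (e i))
      (conj (u (sg.symm (e i))) • (r (sg.symm (e i)) : ℂ) • ψ (e i).1 ((e i).2 - 1)) := by
    intro j
    have hW' : conj (W (sg.symm (e j))) = conj (u (sg.symm (e j))) * (r (sg.symm (e j)) : ℂ) := by
      conv_lhs => rw [huW (sg.symm (e j))]
      rw [map_mul, Complex.conj_ofReal]
    rw [smul_smul, ← hW']
    by_cases hk : ∃ i, e j = sg (e i)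
    · obtain ⟨i, hi⟩ := hk
      have h4 : sg.symm (e j) = e i := by rw [hi, sg.symm_apply_apply]
      rw [adj_one he h1 h2 hi, map_smul, hV, h4, ← lp.single_smul]
      have h5 : (e j).1 = (e i).1 := by rw [hi]; rfl
      have h6 : (e j).2 - 1 = (e i).2 := by
        rw [hi]
        show (e i).2 + 1 - 1 = (e i).2
        ring
      rw [h5, h6]
    · have hW : W (sg.symm (e j)) = 0 := by
        by_contra hW
        obtain ⟨i', j', hi', hj'⟩ := h3 _ hW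
        apply hk
        refine ⟨i', ?_⟩
        rw [hi', sg.apply_symm_apply]
      push Not at hk
      rw [adj_two h1 h2 hk, hW, map_zero, map_zero, zero_smul, lp.single_zero]
  have hcount : Countable ι := he.countable
  have : TopologicalSpace.SeparableSpace KZ := l2_separable
  have : TopologicalSpace.SeparableSpace (lp (fun _ : ℕ × ℤ => KZ) 2) := l2_separable
  have hinf : ¬ FiniteDimensional ℂ (LinearMap.range V.toLinearMap)ᗮ := by
    have hmem : ∀ m : ℕ, (lp.single 2 ((0, 0) : ℕ × ℤ) (fz ((m : ℤ) + 1)) : lp (fun _ : ℕ × ℤ => KZ) 2) ∈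
        (LinearMap.range V.toLinearMap)ᗮ := by
      intro m
      rw [Submodule.mem_orthogonal]
      rintro _ ⟨x, rfl⟩
      show ⟪V x, _⟫_ℂ = 0
      have hA : (innerSL ℂ (lp.single 2 ((0, 0) : ℕ × ℤ) (fz ((m : ℤ) + 1)) :
          lp (fun _ : ℕ × ℤ => KZ) 2)) ∘L V.toContinuousLinearMap = 0 := by
        apply ext_basis b
        intro i
        show ⟪(lp.single 2 ((0, 0) : ℕ × ℤ) (fz ((m : ℤ) + 1)) : lp (fun _ : ℕ × ℤ => KZ) 2), V (b i)⟫_ℂ = 0
        rw [hV, lp.inner_single_left]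
        by_cases hi : e i = (0, 0)
        · rw [hi, lp.single_apply_self, hψ0]
          exact fz_orth.2 (by omega)
        · rw [lp.single_apply_ne _ _ _ (fun h => hi h.symm), inner_zero_right]
      have hB := congrArg (fun A : H →L[ℂ] ℂ => A x) hA
      have hC : ⟪(lp.single 2 ((0, 0) : ℕ × ℤ) (fz ((m : ℤ) + 1)) : lp (fun _ : ℕ × ℤ => KZ) 2), V x⟫_ℂ = 0 := hB
      rw [← inner_conj_symm, hC, map_zero]
    apply not_fin (fun m : ℕ => (⟨_, hmem m⟩ : (LinearMap.range V.toLinearMap)ᗮ))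
    constructor
    · intro m
      show ‖(lp.single 2 ((0, 0) : ℕ × ℤ) (fz ((m : ℤ) + 1)) : lp (fun _ : ℕ × ℤ => KZ) 2)‖ = 1
      rw [lp.norm_single (by norm_num)]
      exact fz_orth.1 _
    · intro m n hmn
      show ⟪(lp.single 2 ((0, 0) : ℕ × ℤ) (fz ((m : ℤ) + 1)) : lp (fun _ : ℕ × ℤ => KZ) 2),
        lp.single 2 ((0, 0) : ℕ × ℤ) (fz ((n : ℤ) + 1))⟫_ℂ = 0
      rw [lp.inner_single_left, lp.single_apply_self]
      exact fz_orth.2 (by omega)
  have G1 : ∀ i, ‖N (V (b i)) - V (T (b i))‖ ^ 2 ≤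
      2 * ‖L (e i).1 (ψ (e i).1 (e i).2) - (r (e i) : ℂ) • ψ (e i).1 (e i).2‖ ^ 2 +
      2 * (r (e i) ^ 2 * ‖ψ (e i).1 ((e i).2 + 1) - ψ (e i).1 (e i).2‖ ^ 2) := by
    intro i
    rw [hNV, hVT, ← lp.single_sub, lp.norm_single (by norm_num), ← smul_sub, norm_smul, hu1, one_mul]
    set x := e i
    have h5 : L x.1 (ψ x.1 x.2) - (r x : ℂ) • ψ x.1 (x.2 + 1) =
        (L x.1 (ψ x.1 x.2) - (r x : ℂ) • ψ x.1 x.2) - (r x : ℂ) • (ψ x.1 (x.2 + 1) - ψ x.1 x.2) := by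
      module
    rw [h5]
    have h6 := norm_sub_le (L x.1 (ψ x.1 x.2) - (r x : ℂ) • ψ x.1 x.2)
      ((r x : ℂ) • (ψ x.1 (x.2 + 1) - ψ x.1 x.2))
    rw [norm_smul, Complex.norm_real, Real.norm_eq_abs, abs_of_nonneg (norm_nonneg _ : 0 ≤ r x)] at h6
    show _ ≤ 2 * ‖L x.1 (ψ x.1 x.2) - (r x : ℂ) • ψ x.1 x.2‖ ^ 2 +
      2 * (r x ^ 2 * ‖ψ x.1 (x.2 + 1) - ψ x.1 x.2‖ ^ 2)
    have h7 := pow_le_pow_left₀ (norm_nonneg _) h6 2
    nlinarith [sq_nonneg (‖L x.1 (ψ x.1 x.2) - (r x : ℂ) • ψ x.1 x.2‖ -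
      r x * ‖ψ x.1 (x.2 + 1) - ψ x.1 x.2‖)]
  have SD : Summable (fun x : ℕ × ℤ => |r x ^ 2 - r (sg.symm x) ^ 2|) := by
    refine ((sg.symm.summable_iff).2 hD).congr fun x => ?_
    simp [hr]
  have SG' : Summable (fun x : ℕ × ℤ => r (sg.symm x) ^ 2 *
        ‖ψ (sg.symm x).1 ((sg.symm x).2 + 1) - ψ (sg.symm x).1 (sg.symm x).2‖ ^ 2) :=
    (sg.symm.summable_iff (f := fun x : ℕ × ℤ => r x ^ 2 * ‖ψ x.1 (x.2 + 1) - ψ x.1 x.2‖ ^ 2)).2 SG
  have G2 : ∀ i, ‖adjoint N (V (b i)) - V (adjoint T (b i))‖ ^ 2 ≤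
      3 * ‖L (e i).1 (ψ (e i).1 (e i).2) - (r (e i) : ℂ) • ψ (e i).1 (e i).2‖ ^ 2 +
      3 * |r (e i) ^ 2 - r (sg.symm (e i)) ^ 2| +
      3 * (r (sg.symm (e i)) ^ 2 * ‖ψ (sg.symm (e i)).1 ((sg.symm (e i)).2 + 1) -
        ψ (sg.symm (e i)).1 (sg.symm (e i)).2‖ ^ 2) := by
    intro i
    rw [hN'V, hVT', ← lp.single_sub, lp.norm_single (by norm_num), ← smul_sub, norm_smul,
      RCLike.norm_conj, hu1, one_mul]
    set x := e i
    show _ ≤ 3 * ‖L x.1 (ψ x.1 x.2) - (r x : ℂ) • ψ x.1 x.2‖ ^ 2 + 3 * |r x ^ 2 - r (sg.symm x) ^ 2| +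
      3 * (r (sg.symm x) ^ 2 * ‖ψ x.1 (x.2 - 1 + 1) - ψ x.1 (x.2 - 1)‖ ^ 2)
    rw [sub_add_cancel]
    set r' := r (sg.symm x)
    have hr0 : 0 ≤ r x := norm_nonneg _
    have hr'0 : 0 ≤ r' := norm_nonneg _
    have h5 : L x.1 (ψ x.1 x.2) - (r' : ℂ) • ψ x.1 (x.2 - 1) =
        (L x.1 (ψ x.1 x.2) - (r x : ℂ) • ψ x.1 x.2) + (((r x - r' : ℝ) : ℂ) • ψ x.1 x.2 +
          (r' : ℂ) • (ψ x.1 x.2 - ψ x.1 (x.2 - 1))) := by
      push_cast
      module
    rw [h5]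
    have h6 := (norm_add_le (L x.1 (ψ x.1 x.2) - (r x : ℂ) • ψ x.1 x.2)
      (((r x - r' : ℝ) : ℂ) • ψ x.1 x.2 + (r' : ℂ) • (ψ x.1 x.2 - ψ x.1 (x.2 - 1)))).trans
      (add_le_add_right (norm_add_le _ _) _)
    rw [norm_smul, norm_smul, hψ, Complex.norm_real, Complex.norm_real, Real.norm_eq_abs,
      Real.norm_eq_abs, abs_of_nonneg hr'0, mul_one] at h6
    have h7 := pow_le_pow_left₀ (norm_nonneg _) h6 2
    have h8 : |r x - r'| ^ 2 ≤ |r x ^ 2 - r' ^ 2| := by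
      have e1 : r x ^ 2 - r' ^ 2 = (r x - r') * (r x + r') := by ring
      rw [e1, abs_mul, abs_of_nonneg (by linarith : 0 ≤ r x + r'), sq]
      apply mul_le_mul_of_nonneg_left _ (abs_nonneg _)
      rw [abs_le]
      constructor <;> linarith
    set α := ‖L x.1 (ψ x.1 x.2) - (r x : ℂ) • ψ x.1 x.2‖
    set β := |r x - r'|
    set γ := r' * ‖ψ x.1 x.2 - ψ x.1 (x.2 - 1)‖ with hγ
    have h9 : r' ^ 2 * ‖ψ x.1 x.2 - ψ x.1 (x.2 - 1)‖ ^ 2 = γ ^ 2 := by rw [hγ]; ring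
    rw [h9]
    nlinarith [sq_nonneg (α - β), sq_nonneg (β - γ), sq_nonneg (α - γ)]
  have P1 := ((SF.mul_left 2).add (SG.mul_left 2))
  have P2 := (((SF.mul_left 3).add (SD.mul_left 3)).add (SG'.mul_left 3))
  have Q1 : Summable (fun i => ‖N (V (b i)) - V (T (b i))‖ ^ 2) :=
    Summable.of_nonneg_of_le (fun i => by positivity) G1 (P1.comp_injective he)
  have Q2 : Summable (fun i => ‖adjoint N (V (b i)) - V (adjoint T (b i))‖ ^ 2) :=
    Summable.of_nonneg_of_le (fun i => by positivity) G2 (P2.comp_injective he)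
  refine (dilation hH T N hNn V hinf b Q1 Q2).mono ?_
  have R1 : ∑' i, ‖N (V (b i)) - V (T (b i))‖ ^ 2 ≤ _ :=
    (Q1.tsum_le_tsum G1 (P1.comp_injective he)).trans
      (tsum_comp_le_tsum_of_inj P1 (fun x => by positivity) he)
  have R2 : ∑' i, ‖adjoint N (V (b i)) - V (adjoint T (b i))‖ ^ 2 ≤ _ :=
    (Q2.tsum_le_tsum G2 (P2.comp_injective he)).trans
      (tsum_comp_le_tsum_of_inj P2 (fun x => by positivity) he)
  rw [(SF.mul_left 2).tsum_add (SG.mul_left 2), tsum_mul_left, tsum_mul_left] at R1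
  rw [((SF.mul_left 3).add (SD.mul_left 3)).tsum_add (SG'.mul_left 3),
    (SF.mul_left 3).tsum_add (SD.mul_left 3), tsum_mul_left, tsum_mul_left, tsum_mul_left] at R2
  set v := ∑' i, ‖⟪b i, (star T * T - T * star T) (b i)⟫_ℂ‖ with hv'
  have hV0 : ∑' x : ℕ × ℤ, |r (sg x) ^ 2 - r x ^ 2| = v := hDs.tsum_eq
  have U1 : ∑' x : ℕ × ℤ, |r x ^ 2 - r (sg.symm x) ^ 2| = v := by
    rw [← hV0, ← sg.tsum_eq (fun x => |r x ^ 2 - r (sg.symm x) ^ 2|)]
    apply tsum_congr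
    intro x
    rw [sg.symm_apply_apply]
  have U2 : ∑' x : ℕ × ℤ, r (sg.symm x) ^ 2 * ‖ψ (sg.symm x).1 ((sg.symm x).2 + 1) -
      ψ (sg.symm x).1 (sg.symm x).2‖ ^ 2 = ∑' x : ℕ × ℤ, r x ^ 2 * ‖ψ x.1 (x.2 + 1) - ψ x.1 x.2‖ ^ 2 :=
    sg.symm.tsum_eq (fun x : ℕ × ℤ => r x ^ 2 * ‖ψ x.1 (x.2 + 1) - ψ x.1 x.2‖ ^ 2)
  have hgs : ∑' k : ℕ, 64 * (∑' q, |r (k, q + 1) ^ 2 - r (k, q) ^ 2| + ε / 2 * (1 / 2 : ℝ) ^ k) =
      64 * (v + ε) := by
    have t1 : ∑' k : ℕ, (∑' q, |r (k, q + 1) ^ 2 - r (k, q) ^ 2| + ε / 2 * (1 / 2 : ℝ) ^ k) =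
        ∑' k : ℕ, ∑' q, |r (k, q + 1) ^ 2 - r (k, q) ^ 2| + ∑' k : ℕ, ε / 2 * (1 / 2 : ℝ) ^ k :=
      hpr.2.tsum_add (summable_geometric_two.mul_left (ε / 2))
    have t2 : ∑' k : ℕ, ∑' q, |r (k, q + 1) ^ 2 - r (k, q) ^ 2| = v := by
      rw [← hV0, hD.tsum_prod]
      rfl
    rw [tsum_mul_left, t1, t2, tsum_mul_left, tsum_geometric_two]
    ring
  have U3 : ∑' x : ℕ × ℤ, ‖L x.1 (ψ x.1 x.2) - (r x : ℂ) • ψ x.1 x.2‖ ^ 2 ≤ 64 * (v + ε) := by
    rw [SF.tsum_prod, ← hgs]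
    exact SF.prod.tsum_le_tsum hFs hgeo
  have U4 : ∑' x : ℕ × ℤ, r x ^ 2 * ‖ψ x.1 (x.2 + 1) - ψ x.1 x.2‖ ^ 2 ≤ 64 * (v + ε) := by
    rw [SG.tsum_prod, ← hgs]
    exact SG.prod.tsum_le_tsum hGs hgeo
  have hv0 : 0 ≤ v := tsum_nonneg fun i => norm_nonneg _
  rw [U1, U2] at R2
  linarith

end Pool.Agent.W2helper9.AN
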