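import Pool.Agent.W2helper9.AN.HSl

/-!
Weighted permutation operators on Hilbert sums `⊕_β K`.
-/

set_option autoImplicit false
set_option linter.unusedSectionVars false

namespace Pool.Agent.W2helper9.AN

open scoped InnerProductSpace
open ContinuousLinearMap

variable {K : Type} [NormedAddCommGroup K] [InnerProductSpace ℂ K] [CompleteSpace K] {β : Type}

theorem l2_norm_sq (a : lp (fun _ : β => K) 2) : HasSum (fun i => ‖a i‖ ^ 2) (‖a‖ ^ 2) := by
  have h := lp.hasSum_norm (p := 2) (by norm_num) a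
  simpa using h

theorem mem_l2 {f : β → K} (h : Summable (fun i => ‖f i‖ ^ 2)) : Memℓp f 2 := by
  apply memℓp_gen
  simpa using h

theorem wop_mem (σ : β ≃ β) (B : β → K →L[ℂ] K) {C : ℝ} (hC : ∀ x, ‖B x‖ ≤ C)
    (a : lp (fun _ : β => K) 2) : Summable (fun y => ‖B (σ.symm y) (a (σ.symm y))‖ ^ 2) := by
  have h1 : Summable (fun y => C ^ 2 * ‖a (σ.symm y)‖ ^ 2) :=
    (σ.symm.summable_iff (f := fun y => ‖a y‖ ^ 2)).2 (l2_norm_sq a).summable |>.mul_left _
  refine Summable.of_nonneg_of_le (fun y => by positivity) (fun y => ?_) h1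
  rw [← mul_pow]
  refine pow_le_pow_left₀ (norm_nonneg _) ?_ 2
  exact ((B (σ.symm y)).le_opNorm _).trans (mul_le_mul_of_nonneg_right (hC _) (norm_nonneg _))

/-- the operator `δ_x ⊗ k ↦ δ_(σ x) ⊗ B x k` -/
noncomputable def wop (σ : β ≃ β) (B : β → K →L[ℂ] K) (C : ℝ) (hC0 : 0 ≤ C) (hC : ∀ x, ‖B x‖ ≤ C) :
    lp (fun _ : β => K) 2 →L[ℂ] lp (fun _ : β => K) 2 :=
  LinearMap.mkContinuous
    { toFun := fun a => ⟨fun y => B (σ.symm y) (a (σ.symm y)), mem_l2 (wop_mem σ B hC a)⟩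
      map_add' := fun a b => by
        ext y
        show B (σ.symm y) ((a + b) (σ.symm y)) = B (σ.symm y) (a (σ.symm y)) + B (σ.symm y) (b (σ.symm y))
        rw [lp.coeFn_add, Pi.add_apply, map_add]
      map_smul' := fun c a => by
        ext y
        simp } C (by
      intro a
      have h1 := l2_norm_sq (⟨fun y => B (σ.symm y) (a (σ.symm y)), mem_l2 (wop_mem σ B hC a)⟩ :
        lp (fun _ : β => K) 2)
      have h2 : HasSum (fun y => C ^ 2 * ‖a (σ.symm y)‖ ^ 2) (C ^ 2 * ‖a‖ ^ 2) :=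
        ((σ.symm.hasSum_iff (f := fun y => ‖a y‖ ^ 2)).2 (l2_norm_sq a)).mul_left _
      have h3 := hasSum_le (fun y => ?_) h1 h2
      · rw [← mul_pow] at h3
        exact le_of_sq_le_sq h3 (by positivity)
      · show ‖B (σ.symm y) (a (σ.symm y))‖ ^ 2 ≤ _
        rw [← mul_pow]
        refine pow_le_pow_left₀ (norm_nonneg _) ?_ 2
        exact ((B (σ.symm y)).le_opNorm _).trans (mul_le_mul_of_nonneg_right (hC _) (norm_nonneg _)))

theorem wop_apply (σ : β ≃ β) (B : β → K →L[ℂ] K) (C : ℝ) (hC0 : 0 ≤ C) (hC : ∀ x, ‖B x‖ ≤ C)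
    (a : lp (fun _ : β => K) 2) (y : β) :
    (wop σ B C hC0 hC a) y = B (σ.symm y) (a (σ.symm y)) := rfl

theorem wop_single [DecidableEq β] (σ : β ≃ β) (B : β → K →L[ℂ] K) (C : ℝ) (hC0 : 0 ≤ C)
    (hC : ∀ x, ‖B x‖ ≤ C) (x : β) (k : K) :
    wop σ B C hC0 hC (lp.single 2 x k) = lp.single 2 (σ x) (B x k) := by
  ext y
  rw [wop_apply]
  by_cases h : y = σ x
  · subst h
    rw [σ.symm_apply_apply, lp.single_apply_self, lp.single_apply_self]
  · have h1 : σ.symm y ≠ x := by
      rintro rfl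
      exact h (σ.apply_symm_apply y).symm
    rw [lp.single_apply_ne _ _ _ h, lp.single_apply_ne _ _ _ h1, map_zero]

theorem wop_adjoint_apply (σ : β ≃ β) (B : β → K →L[ℂ] K) (C : ℝ) (hC0 : 0 ≤ C)
    (hC : ∀ x, ‖B x‖ ≤ C) (a : lp (fun _ : β => K) 2) (x : β) :
    (adjoint (wop σ B C hC0 hC) a) x = adjoint (B x) (a (σ x)) := by
  have hC' : ∀ y, ‖adjoint (B (σ.symm y))‖ ≤ C := by
    intro y
    rw [LinearIsometryEquiv.norm_map]
    exact hC _
  have h : wop σ.symm (fun y => adjoint (B (σ.symm y))) C hC0 hC' = adjoint (wop σ B C hC0 hC) := by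
    rw [eq_adjoint_iff]
    intro a b
    rw [lp.inner_eq_tsum, lp.inner_eq_tsum]
    rw [← σ.symm.tsum_eq]
    apply tsum_congr
    intro y
    rw [wop_apply, wop_apply]
    simp only [Equiv.symm_symm, Equiv.apply_symm_apply]
    rw [adjoint_inner_left]
  rw [← h, wop_apply]
  simp

theorem wop_normal (σ : β ≃ β) (B : β → K →L[ℂ] K) (C : ℝ) (hC0 : 0 ≤ C)
    (hC : ∀ x, ‖B x‖ ≤ C) (hn : ∀ x k, adjoint (B (σ x)) (B (σ x) k) = B x (adjoint (B x) k))
    (a : lp (fun _ : β => K) 2) :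
    adjoint (wop σ B C hC0 hC) (wop σ B C hC0 hC a) = wop σ B C hC0 hC (adjoint (wop σ B C hC0 hC) a) := by
  ext y
  rw [wop_adjoint_apply, wop_apply, wop_apply, wop_adjoint_apply, σ.symm_apply_apply,
    σ.apply_symm_apply, ← hn, σ.apply_symm_apply]

theorem wop_adjoint_single [DecidableEq β] (σ : β ≃ β) (B : β → K →L[ℂ] K) (C : ℝ) (hC0 : 0 ≤ C)
    (hC : ∀ x, ‖B x‖ ≤ C) (x : β) (k : K) :
    adjoint (wop σ B C hC0 hC) (lp.single 2 x k) =
      lp.single 2 (σ.symm x) (adjoint (B (σ.symm x)) k) := by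
  ext y
  rw [wop_adjoint_apply]
  by_cases h : y = σ.symm x
  · subst h
    rw [σ.apply_symm_apply, lp.single_apply_self, lp.single_apply_self]
  · have h1 : σ y ≠ x := by
      rintro rfl
      exact h (σ.symm_apply_apply y).symm
    rw [lp.single_apply_ne _ _ _ h, lp.single_apply_ne _ _ _ h1, map_zero]

theorem l2_separable [Countable β] [TopologicalSpace.SeparableSpace K] :
    TopologicalSpace.SeparableSpace (lp (fun _ : β => K) 2) := by
  classical
  rw [← TopologicalSpace.isSeparable_univ_iff]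
  have h1 : TopologicalSpace.IsSeparable
      (⋃ x : β, Set.range (fun k : K => (lp.single 2 x k : lp (fun _ : β => K) 2))) := by
    apply TopologicalSpace.IsSeparable.iUnion
    intro x
    exact TopologicalSpace.isSeparable_range (lp.isometry_single (E := fun _ : β => K) (p := 2) x).continuous
  have h2 := (h1.span (R := ℂ)).closure
  apply h2.mono
  intro a _
  have h3 := lp.hasSum_single (p := 2) (by norm_num) a
  refine mem_closure_of_tendsto h3 (Filter.Eventually.of_forall fun s => ?_)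
  apply Submodule.sum_mem
  intro i _
  apply Submodule.subset_span
  exact Set.mem_iUnion.2 ⟨i, ⟨a i, rfl⟩⟩

end Pool.Agent.W2helper9.AN
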