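import Pool.Agent.W2helper9.AN.Sc

/-!
The path of unit vectors which rotates slowly between the eigenvectors.
-/

set_option autoImplicit false
set_option linter.unusedSectionVars false

namespace Pool.Agent.W2helper9.AN

open Finset
open scoped InnerProductSpace

variable {K : Type} [NormedAddCommGroup K] [InnerProductSpace ℂ K] [CompleteSpace K]

theorem two_norm {f : ℕ → K} (hf : Orthonormal ℂ f) (i : ℕ) (x y : ℝ) :
    ‖(x : ℂ) • f i + (y : ℂ) • f (i + 1)‖ ^ 2 = x ^ 2 + y ^ 2 := by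
  have h1 : ⟪(x : ℂ) • f i, (y : ℂ) • f (i + 1)⟫_ℂ = 0 := by
    rw [inner_smul_left, inner_smul_right, hf.2 (by omega)]
    simp
  rw [@norm_add_sq ℂ, h1, norm_smul, norm_smul, hf.1, hf.1]
  simp

variable {w a : ℕ → ℝ}

/-- the variation of the block `j` -/
noncomputable def vb (w a : ℕ → ℝ) (j : ℕ) : ℝ := A a (st w a j) (st w a (j + 1))

/-- the number of rotation steps in the block `j + 1` -/
noncomputable def mj (w a : ℕ → ℝ) (j : ℕ) : ℕ := mm w a (st w a (j + 1)) (vb w a j)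

/-- the angle -/
noncomputable def th (w a : ℕ → ℝ) (j t : ℕ) : ℝ := Real.pi / 2 * min 1 ((t : ℝ) / mj w a j)

/-- the path in the block `j` -/
noncomputable def gam (w a : ℕ → ℝ) (f : ℕ → K) : ℕ → ℕ → K
  | 0, _ => f 0
  | j + 1, t => ((Real.cos (th w a j t) : ℝ) : ℂ) • f j + ((Real.sin (th w a j t) : ℝ) : ℂ) • f (j + 1)

/-- the path -/
noncomputable def psi (w a : ℕ → ℝ) (f : ℕ → K) (n : ℕ) : K :=
  gam w a f (bl w a n) (n - st w a (bl w a n) + 1)

theorem vb_pos (h : Hyp w a) (j : ℕ) : 0 < vb w a j :=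
  lt_of_lt_of_le (h.a0 _) (le_A h le_rfl (st_lt h j))

theorem mj_pos (h : Hyp w a) (j : ℕ) : 1 ≤ mj w a j := mm_pos h _ _

theorem th_zero (j : ℕ) : th w a j 0 = 0 := by simp [th]

theorem th_full (h : Hyp w a) {j t : ℕ} (ht : mj w a j ≤ t) : th w a j t = Real.pi / 2 := by
  have h1 : (0 : ℝ) < mj w a j := by exact_mod_cast mj_pos h j
  have h2 : (1 : ℝ) ≤ (t : ℝ) / mj w a j := by
    rw [le_div_iff₀ h1, one_mul]
    exact_mod_cast ht
  unfold th
  rw [min_eq_left h2, mul_one]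

theorem gam_zero (j : ℕ) (f : ℕ → K) : gam w a f (j + 1) 0 = f j := by
  simp [gam, th_zero]

theorem gam_full (h : Hyp w a) (j : ℕ) (f : ℕ → K) {t : ℕ} (ht : len w a (st w a j) ≤ t) :
    gam w a f j t = f j := by
  cases j with
  | zero => rfl
  | succ j =>
    have h1 : mj w a j ≤ t := (mm_le _ _).trans ht
    simp [gam, th_full h h1]

theorem gam_norm {f : ℕ → K} (hf : Orthonormal ℂ f) (j t : ℕ) : ‖gam w a f j t‖ = 1 := by
  cases j with
  | zero => exact hf.1 0
  | succ j =>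
    have h1 := two_norm hf j (Real.cos (th w a j t)) (Real.sin (th w a j t))
    have h2 := Real.sin_sq_add_cos_sq (th w a j t)
    have h3 : ‖gam w a f (j + 1) t‖ ^ 2 = 1 := by
      show ‖((Real.cos (th w a j t) : ℝ) : ℂ) • f j + ((Real.sin (th w a j t) : ℝ) : ℂ) • f (j + 1)‖ ^ 2 = 1
      rw [h1]; linarith
    have h4 := norm_nonneg (gam w a f (j + 1) t)
    nlinarith

theorem psi_norm {f : ℕ → K} (hf : Orthonormal ℂ f) (n : ℕ) : ‖psi w a f n‖ = 1 := gam_norm hf _ _

theorem psi_zero (h : Hyp w a) (f : ℕ → K) : psi w a f 0 = f 0 := by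
  have h1 : bl w a 0 = 0 := bl_eq h (le_refl 0) (st_lt h 0)
  unfold psi
  rw [h1]
  rfl

theorem psi_block (h : Hyp w a) (f : ℕ → K) {j n : ℕ} (h1 : st w a j ≤ n) (h2 : n < st w a (j + 1)) :
    psi w a f n = gam w a f j (n - st w a j + 1) := by
  unfold psi
  rw [bl_eq h h1 h2]

theorem psi_prev (h : Hyp w a) (f : ℕ → K) {j n : ℕ} (h1 : st w a (j + 1) ≤ n + 1)
    (h2 : n + 1 < st w a (j + 2)) : psi w a f n = gam w a f (j + 1) (n + 1 - st w a (j + 1)) := by
  rcases Nat.eq_or_lt_of_le h1 with h3 | h3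
  · have h4 := st_lt h j
    rw [psi_block h f (j := j) (by omega) (by omega)]
    have h5 : n - st w a j + 1 = len w a (st w a j) := by
      have : st w a (j + 1) = nxt w a (st w a j) := rfl
      unfold len
      omega
    rw [h5, gam_full h j f le_rfl]
    have h6 : n + 1 - st w a (j + 1) = 0 := by omega
    rw [h6, gam_zero]
  · rw [psi_block h f (j := j + 1) (by omega) (show n < st w a (j + 2) by omega)]
    congr 1
    omega

/-- the cost of staying -/
noncomputable def cs (w a : ℕ → ℝ) (f : ℕ → K) (L : K →L[ℂ] K) (n : ℕ) : ℝ :=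
  ‖L (psi w a f n) - (w n : ℂ) • psi w a f n‖ ^ 2

/-- the cost of rotating -/
noncomputable def cr (w a : ℕ → ℝ) (f : ℕ → K) (n : ℕ) : ℝ :=
  w n ^ 2 * ‖psi w a f (n + 1) - psi w a f n‖ ^ 2

theorem gam_diff {f : ℕ → K} (h : Hyp w a) (hf : Orthonormal ℂ f) (j t : ℕ) :
    ‖gam w a f (j + 1) (t + 1) - gam w a f (j + 1) t‖ ^ 2 ≤
      if t < mj w a j then (Real.pi / 2 / mj w a j) ^ 2 else 0 := by
  set α := th w a j (t + 1)
  set β := th w a j t
  have e1 : gam w a f (j + 1) (t + 1) - gam w a f (j + 1) t =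
      ((Real.cos α - Real.cos β : ℝ) : ℂ) • f j + ((Real.sin α - Real.sin β : ℝ) : ℂ) • f (j + 1) := by
    show (((Real.cos α : ℝ) : ℂ) • f j + ((Real.sin α : ℝ) : ℂ) • f (j + 1)) -
      (((Real.cos β : ℝ) : ℂ) • f j + ((Real.sin β : ℝ) : ℂ) • f (j + 1)) = _
    push_cast
    module
  rw [e1, two_norm hf]
  have e2 : (Real.cos α - Real.cos β) ^ 2 + (Real.sin α - Real.sin β) ^ 2 = 2 - 2 * Real.cos (α - β) := by
    rw [Real.cos_sub]
    nlinarith [Real.sin_sq_add_cos_sq α, Real.sin_sq_add_cos_sq β]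
  rw [e2]
  have e3 := Real.one_sub_sq_div_two_le_cos (x := α - β)
  have hm : (0 : ℝ) < mj w a j := by exact_mod_cast mj_pos h j
  split_ifs with ht
  · have e4 : α - β = Real.pi / 2 / mj w a j := by
      have h1 : ((t : ℝ)) / mj w a j ≤ 1 := by
        rw [div_le_one hm]
        exact_mod_cast ht.le
      have h2 : (((t + 1 : ℕ) : ℝ)) / mj w a j ≤ 1 := by
        rw [div_le_one hm]
        exact_mod_cast ht
      show Real.pi / 2 * min 1 (((t + 1 : ℕ) : ℝ) / mj w a j) - Real.pi / 2 * min 1 ((t : ℝ) / mj w a j) = _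
      rw [min_eq_right h1, min_eq_right h2]
      push_cast
      field_simp
      ring
    rw [e4] at e3 ⊢
    linarith
  · have e4 : α = β := by
      show th w a j (t + 1) = th w a j t
      rw [th_full h (by omega), th_full h (by omega)]
    rw [e4]
    simp

theorem sum_ite (s e k : ℕ) {c : ℝ} (hc : 0 ≤ c) :
    ∑ n ∈ Ico s e, (if n - s < k then c else 0) ≤ k * c := by
  rw [← sum_filter, sum_const, nsmul_eq_mul]
  apply mul_le_mul_of_nonneg_right _ hc
  have h1 : (Ico s e).filter (fun n => n - s < k) ⊆ Ico s (s + k) := by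
    intro n hn
    rw [mem_filter, mem_Ico] at hn
    rw [mem_Ico]
    omega
  have h2 := card_le_card h1
  rw [Nat.card_Ico] at h2
  have h3 : ((Ico s e).filter (fun n => n - s < k)).card ≤ k := by omega
  exact_mod_cast h3

/-- the cost of the block `j + 1` -/
theorem block_cost {f : ℕ → K} (h : Hyp w a) (hf : Orthonormal ℂ f) (L : K →L[ℂ] K)
    (hL : ∀ j, L (f j) = ((w (st w a j) : ℝ) : ℂ) • f j) (j : ℕ) :
    ∑ n ∈ Ico (st w a (j + 1)) (st w a (j + 2)), (cs w a f L n + cr w a f (n - 1)) ≤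
      30 * (vb w a (j + 1) + vb w a j) := by
  set p := st w a j with hp
  set s := st w a (j + 1) with hs
  set v := vb w a j with hv
  set m := mj w a j with hm
  have hv0 : 0 < v := vb_pos h j
  have hps : p < s := st_lt h j
  have hse : st w a (j + 2) = nxt w a s := rfl
  have hA0 : 0 < vb w a (j + 1) := vb_pos h (j + 1)
  have hAe : A a s (nxt w a s) = vb w a (j + 1) := rfl
  have hm1 : (1 : ℝ) ≤ m := by exact_mod_cast mj_pos h j
  have hmm : m = mm w a s v := rfl
  -- staying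
  have k1 : ∀ n ∈ Ico s (nxt w a s), cs w a f L n ≤
      (if n - s < m - 1 then 2 * (w p - w s) ^ 2 else 0) + 3 * (w n - w s) ^ 2 := by
    intro n hn
    rw [mem_Ico] at hn
    unfold cs
    rw [psi_block h f (j := j + 1) hn.1 hn.2]
    set θ := th w a j (n - s + 1) with hθ
    have e1 : L (gam w a f (j + 1) (n - s + 1)) - (w n : ℂ) • gam w a f (j + 1) (n - s + 1) =
        ((Real.cos θ * (w p - w n) : ℝ) : ℂ) • f j + ((Real.sin θ * (w s - w n) : ℝ) : ℂ) • f (j + 1) := by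
      show L (((Real.cos θ : ℝ) : ℂ) • f j + ((Real.sin θ : ℝ) : ℂ) • f (j + 1)) -
        (w n : ℂ) • (((Real.cos θ : ℝ) : ℂ) • f j + ((Real.sin θ : ℝ) : ℂ) • f (j + 1)) = _
      rw [map_add, map_smul, map_smul, hL, hL]
      push_cast
      module
    rw [e1, two_norm hf]
    split_ifs with h1
    · have h2 : Real.cos θ ^ 2 ≤ 1 := Real.cos_sq_le_one θ
      have h3 : Real.sin θ ^ 2 ≤ 1 := Real.sin_sq_le_one θ
      have h4 : (w p - w n) ^ 2 ≤ 2 * (w p - w s) ^ 2 + 2 * (w n - w s) ^ 2 := by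
        nlinarith [sq_nonneg ((w p - w s) + (w n - w s))]
      have h5 : (Real.cos θ * (w p - w n)) ^ 2 ≤ (w p - w n) ^ 2 := by
        rw [mul_pow]; nlinarith [sq_nonneg (w p - w n)]
      have h6 : (Real.sin θ * (w s - w n)) ^ 2 ≤ (w n - w s) ^ 2 := by
        rw [mul_pow]; nlinarith [sq_nonneg (w n - w s)]
      linarith
    · have h2 : θ = Real.pi / 2 := th_full h (by omega)
      rw [h2, Real.cos_pi_div_two, Real.sin_pi_div_two]
      nlinarith [sq_nonneg (w n - w s)]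
  -- rotating
  have k2 : ∀ n ∈ Ico s (nxt w a s), cr w a f (n - 1) ≤
      (if n - s < m then (5 / 4 * w s ^ 2 + v) * (Real.pi / 2 / m) ^ 2 else 0) := by
    intro n hn
    rw [mem_Ico] at hn
    obtain ⟨n, rfl⟩ : ∃ q, n = q + 1 := ⟨n - 1, by omega⟩
    rw [Nat.add_sub_cancel]
    unfold cr
    rw [psi_block h f (j := j + 1) (n := n + 1) hn.1 hn.2, psi_prev h f (j := j) hn.1 hn.2]
    have e1 := gam_diff h hf j (n + 1 - s)
    have e2 : w n ^ 2 ≤ 5 / 4 * w s ^ 2 + v := by
      rcases Nat.eq_or_lt_of_le hn.1 with h3 | h3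
      · have h4 := h.d n
        have h5 : a n ≤ v := le_A h (show p ≤ n by omega) (show n < s by omega)
        rw [← h3] at h4
        have := abs_le.1 h4
        nlinarith [sq_nonneg (w s)]
      · have h4 := tele h (show s ≤ n by omega)
        have h5 := osc h (s := s) (n := n) (by omega) (by omega)
        have h6 : (1 : ℝ) ≤ len w a s := by exact_mod_cast len_pos h s
        have h7 := A_nonneg h s n
        have := abs_le.1 h4
        nlinarith
    have e3 : 0 ≤ ‖gam w a f (j + 1) (n + 1 - s + 1) - gam w a f (j + 1) (n + 1 - s)‖ ^ 2 := by positivity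
    have e4 : 0 ≤ w n ^ 2 := sq_nonneg _
    split_ifs at e1 ⊢ with h1
    · exact mul_le_mul e2 e1 e3 (e4.trans e2)
    · have : ‖gam w a f (j + 1) (n + 1 - s + 1) - gam w a f (j + 1) (n + 1 - s)‖ ^ 2 = 0 :=
        le_antisymm e1 e3
      rw [this, mul_zero]
  rw [hse, sum_add_distrib]
  have s1 := sum_le_sum k1
  rw [sum_add_distrib, ← mul_sum] at s1
  have s2 := sum_ite s (nxt w a s) (m - 1) (c := 2 * (w p - w s) ^ 2) (by positivity)
  have s3 := stay_sum h s
  rw [hAe] at s3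
  have s4 := (sum_le_sum k2).trans (sum_ite s (nxt w a s) m
    (c := (5 / 4 * w s ^ 2 + v) * (Real.pi / 2 / m) ^ 2) (by positivity))
  have hm' : ((m - 1 : ℕ) : ℝ) = (m : ℝ) - 1 := by
    rw [Nat.cast_sub (show 1 ≤ m from mj_pos h j), Nat.cast_one]
  rw [hm'] at s2
  have s5 : ((m : ℝ) - 1) * (w p - w s) ^ 2 ≤ v := by
    have h1 : ((m : ℝ) - 1) * v ≤ w s ^ 2 := mm_sub s hv0
    have h2 := tele h hps.le
    have h3 : (w s ^ 2 - w p ^ 2) ^ 2 ≤ v ^ 2 := by
      rw [← sq_abs]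
      exact pow_le_pow_left₀ (abs_nonneg _) h2 2
    have h4 : (w p - w s) ^ 2 * w s ^ 2 ≤ v ^ 2 := by
      have e2 : (w s ^ 2 - w p ^ 2) ^ 2 = (w p - w s) ^ 2 * (w p + w s) ^ 2 := by ring
      have e3 : w s ^ 2 ≤ (w p + w s) ^ 2 := by nlinarith [h.w0 p, h.w0 s]
      nlinarith [sq_nonneg (w p - w s)]
    have h5 : ((m : ℝ) - 1) * (w p - w s) ^ 2 * v ≤ v * v := by
      nlinarith [sq_nonneg (w p - w s)]
    exact le_of_mul_le_mul_right h5 hv0
  have s6 : (m : ℝ) * ((5 / 4 * w s ^ 2 + v) * (Real.pi / 2 / m) ^ 2) ≤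
      25 * vb w a (j + 1) + 45 / 8 * v := by
    have h1 : w s ^ 2 ≤ (m : ℝ) * (8 * vb w a (j + 1) + v) := by
      have := mm_inv h s hv0
      rwa [hAe] at this
    have h2 : 5 / 4 * w s ^ 2 + v ≤ m * (10 * vb w a (j + 1) + 9 / 4 * v) := by nlinarith
    have h3 : Real.pi ^ 2 ≤ 10 := by nlinarith [Real.pi_lt_d2, Real.pi_pos]
    have h4 : (m : ℝ) * ((5 / 4 * w s ^ 2 + v) * (Real.pi / 2 / m) ^ 2) =
        (5 / 4 * w s ^ 2 + v) / m * (Real.pi ^ 2 / 4) := by
      have : (m : ℝ) ≠ 0 := by linarith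
      field_simp
      ring
    rw [h4]
    have h5 : (5 / 4 * w s ^ 2 + v) / m ≤ 10 * vb w a (j + 1) + 9 / 4 * v := by
      rw [div_le_iff₀ (by linarith)]
      linarith
    have h6 : 0 ≤ (5 / 4 * w s ^ 2 + v) / m := by positivity
    have h7 : 0 ≤ 10 * vb w a (j + 1) + 9 / 4 * v := by positivity
    calc (5 / 4 * w s ^ 2 + v) / m * (Real.pi ^ 2 / 4)
        ≤ (10 * vb w a (j + 1) + 9 / 4 * v) * (5 / 2) :=
          mul_le_mul h5 (by linarith) (by positivity) h7
      _ = _ := by ring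
  linarith

/-- the cost of the block `0` -/
theorem block_zero {f : ℕ → K} (h : Hyp w a) (hf : Orthonormal ℂ f) (L : K →L[ℂ] K)
    (hL : ∀ j, L (f j) = ((w (st w a j) : ℝ) : ℂ) • f j) :
    ∑ n ∈ Ico 0 (st w a 1), cs w a f L n ≤ vb w a 0 / 4 ∧
      ∀ n, n + 1 < st w a 1 → cr w a f n = 0 := by
  have hst : st w a 1 = nxt w a 0 := rfl
  constructor
  · have h1 := stay_sum h 0
    rw [← hst] at h1
    refine (sum_le_sum fun n hn => ?_).trans h1
    rw [mem_Ico] at hn
    unfold cs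
    rw [psi_block h f (j := 0) (show st w a 0 ≤ n from hn.1) hn.2]
    have e1 : L (gam w a f 0 (n - st w a 0 + 1)) - (w n : ℂ) • gam w a f 0 (n - st w a 0 + 1) =
        ((w 0 - w n : ℝ) : ℂ) • f 0 := by
      show L (f 0) - (w n : ℂ) • f 0 = _
      rw [hL]
      show ((w 0 : ℝ) : ℂ) • f 0 - (w n : ℂ) • f 0 = _
      push_cast
      module
    rw [e1, norm_smul, hf.1, mul_one, Complex.norm_real, Real.norm_eq_abs, sq_abs]
    nlinarith
  · intro n hn
    unfold cr
    rw [psi_block h f (j := 0) (n := n) (Nat.zero_le _) (by show n < st w a 1; omega),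
      psi_block h f (j := 0) (n := n + 1) (Nat.zero_le _) (by show n + 1 < st w a 1; omega)]
    show w n ^ 2 * ‖f 0 - f 0‖ ^ 2 = 0
    simp

theorem partial_cost {f : ℕ → K} (h : Hyp w a) (hf : Orthonormal ℂ f) (L : K →L[ℂ] K)
    (hL : ∀ j, L (f j) = ((w (st w a j) : ℝ) : ℂ) • f j) (j : ℕ) :
    ∑ n ∈ range (st w a (j + 1)), cs w a f L n + ∑ n ∈ range (st w a (j + 1) - 1), cr w a f n ≤
      60 * A a 0 (st w a (j + 1)) - 30 * vb w a j := by
  induction j with
  | zero =>
    obtain ⟨h1, h2⟩ := block_zero h hf L hL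
    rw [← range_eq_Ico] at h1
    have h3 : ∑ n ∈ range (st w a (0 + 1) - 1), cr w a f n = 0 := by
      apply sum_eq_zero
      intro n hn
      rw [mem_range] at hn
      have hn' : n < st w a 1 - 1 := hn
      exact h2 n (by omega)
    rw [h3]
    have h4 : A a 0 (st w a (0 + 1)) = vb w a 0 := rfl
    rw [h4]
    have := vb_pos h 0
    have h5 : ∑ n ∈ range (st w a (0 + 1)), cs w a f L n ≤ vb w a 0 / 4 := h1
    linarith
  | succ j ih =>
    have hb := block_cost h hf L hL j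
    rw [sum_add_distrib] at hb
    have hs1 := st_lt h j
    have hs2 := st_lt h (j + 1)
    have e1 : ∑ n ∈ range (st w a (j + 1 + 1)), cs w a f L n = ∑ n ∈ range (st w a (j + 1)), cs w a f L n +
        ∑ n ∈ Ico (st w a (j + 1)) (st w a (j + 2)), cs w a f L n :=
      (sum_range_add_sum_Ico _ hs2.le).symm
    have e2 : ∑ n ∈ range (st w a (j + 1 + 1) - 1), cr w a f n =
        ∑ n ∈ range (st w a (j + 1) - 1), cr w a f n +
        ∑ n ∈ Ico (st w a (j + 1)) (st w a (j + 2)), cr w a f (n - 1) := by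
      rw [← sum_range_add_sum_Ico (fun n => cr w a f n)
        (show st w a (j + 1) - 1 ≤ st w a (j + 1 + 1) - 1 by omega)]
      congr 1
      rw [sum_Ico_eq_sum_range, sum_Ico_eq_sum_range]
      have e3 : st w a (j + 1 + 1) - 1 - (st w a (j + 1) - 1) = st w a (j + 2) - st w a (j + 1) := by
        show st w a (j + 2) - 1 - (st w a (j + 1) - 1) = _
        omega
      rw [e3]
      apply sum_congr rfl
      intro i _
      congr 1
      omega
    have e4 : A a 0 (st w a (j + 1 + 1)) = A a 0 (st w a (j + 1)) + vb w a (j + 1) :=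
      (A_add a (Nat.zero_le _) hs2.le).symm
    rw [e1, e2, e4]
    linarith

/-- **The one-sided lemma.** -/
theorem one_sided {f : ℕ → K} (h : Hyp w a) (hf : Orthonormal ℂ f) (L : K →L[ℂ] K)
    (hL : ∀ j, L (f j) = ((w (st w a j) : ℝ) : ℂ) • f j) (ha : Summable a) :
    Summable (cs w a f L) ∧ Summable (cr w a f) ∧
      ∑' n, cs w a f L n ≤ 60 * ∑' n, a n ∧ ∑' n, cr w a f n ≤ 60 * ∑' n, a n := by
  have hc0 : ∀ n, 0 ≤ cs w a f L n := fun n => by unfold cs; positivity
  have hr0 : ∀ n, 0 ≤ cr w a f n := fun n => by unfold cr; positivity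
  have key : ∀ N, ∑ n ∈ range N, cs w a f L n ≤ 60 * ∑' n, a n ∧
      ∑ n ∈ range N, cr w a f n ≤ 60 * ∑' n, a n := by
    intro N
    have h1 := partial_cost h hf L hL N
    have h2 : N + 1 ≤ st w a (N + 1) := (st_mono h).le_apply
    have h3 : A a 0 (st w a (N + 1)) ≤ ∑' n, a n := by
      unfold A
      rw [← range_eq_Ico]
      exact ha.sum_le_tsum _ (fun i _ => (h.a0 i).le)
    have h4 := vb_pos h N
    have h5 : ∑ n ∈ range N, cs w a f L n ≤ ∑ n ∈ range (st w a (N + 1)), cs w a f L n :=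
      sum_le_sum_of_subset_of_nonneg (range_subset_range.2 (by omega)) (fun i _ _ => hc0 i)
    have h6 : ∑ n ∈ range N, cr w a f n ≤ ∑ n ∈ range (st w a (N + 1) - 1), cr w a f n :=
      sum_le_sum_of_subset_of_nonneg (range_subset_range.2 (by omega)) (fun i _ _ => hr0 i)
    have h7 : 0 ≤ ∑ n ∈ range (st w a (N + 1)), cs w a f L n := sum_nonneg fun i _ => hc0 i
    have h8 : 0 ≤ ∑ n ∈ range (st w a (N + 1) - 1), cr w a f n := sum_nonneg fun i _ => hr0 i
    constructor <;> linarith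
  refine ⟨summable_of_sum_range_le hc0 fun N => (key N).1, summable_of_sum_range_le hr0 fun N => (key N).2,
    Real.tsum_le_of_sum_range_le hc0 fun N => (key N).1,
    Real.tsum_le_of_sum_range_le hr0 fun N => (key N).2⟩

end Pool.Agent.W2helper9.AN
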