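import Mathlib

/-!
Blocks for a sequence `w` of bounded variation of squares, and the slow rotation between eigenvectors.
-/

set_option autoImplicit false

namespace Pool.Agent.W2helper9.AN

open Finset

/-- sum of `a` over `[s, t)` -/
noncomputable def A (a : ℕ → ℝ) (s t : ℕ) : ℝ := ∑ i ∈ Ico s t, a i

structure Hyp (w a : ℕ → ℝ) : Prop where
  w0 : ∀ n, 0 ≤ w n
  a0 : ∀ n, 0 < a n
  d : ∀ n, |w (n + 1) ^ 2 - w n ^ 2| ≤ a n

variable {w a : ℕ → ℝ}

theorem A_nonneg (h : Hyp w a) (s t : ℕ) : 0 ≤ A a s t := sum_nonneg fun i _ => (h.a0 i).le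

theorem A_add (a : ℕ → ℝ) {r s t : ℕ} (h1 : r ≤ s) (h2 : s ≤ t) : A a r s + A a s t = A a r t :=
  sum_Ico_consecutive a h1 h2

theorem A_mono (h : Hyp w a) {s t u : ℕ} (h1 : t ≤ u) : A a s t ≤ A a s u := by
  apply sum_le_sum_of_subset_of_nonneg
  · exact Ico_subset_Ico le_rfl h1
  · intro i _ _
    exact (h.a0 i).le

theorem le_A (h : Hyp w a) {s t i : ℕ} (h1 : s ≤ i) (h2 : i < t) : a i ≤ A a s t :=
  single_le_sum (f := a) (fun i _ => (h.a0 i).le) (mem_Ico.2 ⟨h1, h2⟩)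

theorem tele (h : Hyp w a) {s t : ℕ} (h1 : s ≤ t) : |w t ^ 2 - w s ^ 2| ≤ A a s t := by
  induction t, h1 using Nat.le_induction with
  | base => simp [A]
  | succ t ht ih =>
    have h2 : A a s (t + 1) = A a s t + a t := by
      unfold A
      rw [sum_Ico_succ_top ht]
    rw [h2]
    have h3 := h.d t
    calc |w (t + 1) ^ 2 - w s ^ 2| = |(w (t + 1) ^ 2 - w t ^ 2) + (w t ^ 2 - w s ^ 2)| := by ring_nf
      _ ≤ |w (t + 1) ^ 2 - w t ^ 2| + |w t ^ 2 - w s ^ 2| := abs_add_le _ _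
      _ ≤ A a s t + a t := by linarith

theorem ex (h : Hyp w a) (s : ℕ) : ∃ t, s < t ∧ w s ^ 2 / 4 < ((t : ℝ) - s + 1) * A a s t := by
  obtain ⟨k, hk⟩ := exists_nat_gt (w s ^ 2 / 4 / a s)
  refine ⟨s + 1 + k, by omega, ?_⟩
  have h1 : a s ≤ A a s (s + 1 + k) := le_A h le_rfl (by omega)
  have h2 := h.a0 s
  rw [div_lt_iff₀ h2] at hk
  push_cast
  have h3 : (k : ℝ) * a s ≤ ((s : ℝ) + 1 + k - s + 1) * A a s (s + 1 + k) := by
    apply mul_le_mul _ h1 h2.le
    · have : (0 : ℝ) ≤ k := by positivity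
      linarith
    · linarith
  linarith

open Classical in
/-- the end of the block which starts at `s` -/
noncomputable def nxt (w a : ℕ → ℝ) (s : ℕ) : ℕ :=
  if h : ∃ t, s < t ∧ w s ^ 2 / 4 < ((t : ℝ) - s + 1) * A a s t then Nat.find h else s + 1

theorem nxt_spec (h : Hyp w a) (s : ℕ) :
    s < nxt w a s ∧ w s ^ 2 / 4 < ((nxt w a s : ℝ) - s + 1) * A a s (nxt w a s) := by
  classical
  unfold nxt
  rw [dif_pos (ex h s)]
  exact Nat.find_spec (ex h s)

theorem nxt_min (h : Hyp w a) {s t : ℕ} (h1 : s < t) (h2 : t < nxt w a s) :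
    ((t : ℝ) - s + 1) * A a s t ≤ w s ^ 2 / 4 := by
  classical
  unfold nxt at h2
  rw [dif_pos (ex h s)] at h2
  have := Nat.find_min (ex h s) h2
  by_contra h3
  push Not at h3
  exact this ⟨h1, h3⟩

/-- the length of the block which starts at `s` -/
noncomputable def len (w a : ℕ → ℝ) (s : ℕ) : ℕ := nxt w a s - s

theorem len_pos (h : Hyp w a) (s : ℕ) : 0 < len w a s := by
  have := (nxt_spec h s).1
  unfold len; omega

theorem osc (h : Hyp w a) {s n : ℕ} (h1 : s ≤ n) (h2 : n < nxt w a s) :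
    (len w a s : ℝ) * A a s n ≤ w s ^ 2 / 4 := by
  rcases Nat.eq_or_lt_of_le h1 with h3 | h3
  · subst h3
    have : A a s s = 0 := by simp [A]
    rw [this]; nlinarith [sq_nonneg (w s)]
  · have h4 : A a s n ≤ A a s (nxt w a s - 1) := A_mono h (by omega)
    have h5 := nxt_min h (s := s) (t := nxt w a s - 1) (by omega) (by omega)
    have h6 : (((nxt w a s - 1 : ℕ) : ℝ) - s + 1) = (len w a s : ℝ) := by
      unfold len
      rw [Nat.cast_sub (by omega), Nat.cast_sub (by omega)]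
      push_cast; ring
    rw [h6] at h5
    exact (mul_le_mul_of_nonneg_left h4 (by positivity)).trans h5

theorem stay (h : Hyp w a) {s n : ℕ} (h1 : s ≤ n) (h2 : n < nxt w a s) :
    (len w a s : ℝ) * (w n - w s) ^ 2 ≤ A a s (nxt w a s) / 4 := by
  have h3 := osc h h1 h2
  have h4 := tele h h1
  have h5 := A_nonneg h s n
  have h6 : A a s n ≤ A a s (nxt w a s) := A_mono h h2.le
  have h7 : (0 : ℝ) < len w a s := by exact_mod_cast len_pos h s
  have hn := h.w0 n
  have hs := h.w0 s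
  rcases hs.eq_or_lt with h8 | h8
  · rw [← h8] at h3
    have h9 : A a s n = 0 := by nlinarith
    rw [h9, ← h8] at h4
    have h10 : w n = 0 := by
      have : w n ^ 2 = 0 := by
        have := abs_nonpos_iff.1 h4
        nlinarith
      exact pow_eq_zero_iff (two_ne_zero) |>.1 this
    rw [h10, ← h8]
    have := A_nonneg h s (nxt w a s)
    simp; linarith
  · have h9 : (w n - w s) ^ 2 * w s ^ 2 ≤ A a s n ^ 2 := by
      have e1 : (w n ^ 2 - w s ^ 2) ^ 2 ≤ A a s n ^ 2 := by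
        rw [← sq_abs]
        exact pow_le_pow_left₀ (abs_nonneg _) h4 2
      have e2 : (w n ^ 2 - w s ^ 2) ^ 2 = (w n - w s) ^ 2 * (w n + w s) ^ 2 := by ring
      have e3 : w s ^ 2 ≤ (w n + w s) ^ 2 := by nlinarith
      nlinarith [sq_nonneg (w n - w s)]
    have h10 : (len w a s : ℝ) * (w n - w s) ^ 2 * w s ^ 2 ≤ A a s n / 4 * w s ^ 2 := by
      nlinarith
    have h11 := le_of_mul_le_mul_right h10 (by positivity)
    linarith

theorem stay_sum (h : Hyp w a) (s : ℕ) :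
    ∑ n ∈ Ico s (nxt w a s), (w n - w s) ^ 2 ≤ A a s (nxt w a s) / 4 := by
  have h7 : (0 : ℝ) < len w a s := by exact_mod_cast len_pos h s
  have h1 : ∀ n ∈ Ico s (nxt w a s), (w n - w s) ^ 2 ≤ A a s (nxt w a s) / 4 / len w a s := by
    intro n hn
    rw [mem_Ico] at hn
    rw [le_div_iff₀ h7]
    have := stay h hn.1 hn.2
    linarith
  have h2 := sum_le_card_nsmul _ _ _ h1
  rw [Nat.card_Ico, nsmul_eq_mul] at h2
  have h3 : ((nxt w a s - s : ℕ) : ℝ) = len w a s := rfl
  rw [h3, mul_div_cancel₀ _ h7.ne'] at h2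
  exact h2

/-- the number of steps of the rotation at the beginning of the block which starts at `s`, when the
previous block has the variation `v` -/
noncomputable def mm (w a : ℕ → ℝ) (s : ℕ) (v : ℝ) : ℕ := min (len w a s) (max 1 ⌈w s ^ 2 / v⌉₊)

theorem mm_pos (h : Hyp w a) (s : ℕ) (v : ℝ) : 1 ≤ mm w a s v :=
  le_min (len_pos h s) (le_max_left _ _)

theorem mm_le (s : ℕ) (v : ℝ) : mm w a s v ≤ len w a s := min_le_left _ _

theorem mm_sub (s : ℕ) {v : ℝ} (hv : 0 < v) : ((mm w a s v : ℝ) - 1) * v ≤ w s ^ 2 := by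
  have h0 : 0 ≤ w s ^ 2 / v := by positivity
  have h1 : (mm w a s v : ℝ) ≤ max 1 (⌈w s ^ 2 / v⌉₊ : ℝ) := by
    unfold mm
    push_cast
    exact min_le_right _ _
  have h2 := Nat.ceil_lt_add_one h0
  have h3 : (mm w a s v : ℝ) - 1 ≤ w s ^ 2 / v := by
    rcases le_max_iff.1 h1 with h4 | h4 <;> linarith
  rwa [le_div_iff₀ hv] at h3

theorem mm_inv (h : Hyp w a) (s : ℕ) {v : ℝ} (hv : 0 < v) :
    w s ^ 2 ≤ (mm w a s v : ℝ) * (8 * A a s (nxt w a s) + v) := by
  have hA := A_nonneg h s (nxt w a s)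
  have h7 : (1 : ℝ) ≤ len w a s := by exact_mod_cast len_pos h s
  have hm : (1 : ℝ) ≤ mm w a s v := by exact_mod_cast mm_pos h s v
  rcases min_choice (len w a s) (max 1 ⌈w s ^ 2 / v⌉₊) with h1 | h1
  · have h2 : (mm w a s v : ℝ) = len w a s := by unfold mm; rw [h1]
    have h3 := (nxt_spec h s).2
    have h4 : ((nxt w a s : ℝ) - s + 1) = len w a s + 1 := by
      unfold len
      rw [Nat.cast_sub (nxt_spec h s).1.le]
    rw [h4] at h3
    rw [h2]
    nlinarith
  · have h2 : (mm w a s v : ℝ) = max 1 (⌈w s ^ 2 / v⌉₊ : ℝ) := by unfold mm; rw [h1]; push_cast; rfl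
    have h3 : w s ^ 2 / v ≤ mm w a s v := by
      rw [h2]
      exact (Nat.le_ceil _).trans (le_max_right _ _)
    rw [div_le_iff₀ hv] at h3
    nlinarith

/-- the starting points of the blocks -/
noncomputable def st (w a : ℕ → ℝ) : ℕ → ℕ
  | 0 => 0
  | j + 1 => nxt w a (st w a j)

theorem st_lt (h : Hyp w a) (j : ℕ) : st w a j < st w a (j + 1) := (nxt_spec h _).1

theorem st_mono (h : Hyp w a) : StrictMono (st w a) := strictMono_nat_of_lt_succ (st_lt h)

/-- the block of `n` -/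
noncomputable def bl (w a : ℕ → ℝ) (n : ℕ) : ℕ := Nat.findGreatest (fun j => st w a j ≤ n) n

theorem bl_spec (h : Hyp w a) (n : ℕ) : st w a (bl w a n) ≤ n ∧ n < st w a (bl w a n + 1) := by
  constructor
  · exact Nat.findGreatest_spec (P := fun j => st w a j ≤ n) (Nat.zero_le n) (Nat.zero_le n)
  · by_contra h1
    push Not at h1
    have h2 : bl w a n + 1 ≤ n := ((st_mono h).le_apply).trans h1
    have h3 := Nat.le_findGreatest (P := fun j => st w a j ≤ n) h2 h1
    have h4 : bl w a n + 1 ≤ bl w a n := h3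
    omega

theorem bl_eq (h : Hyp w a) {n j : ℕ} (h1 : st w a j ≤ n) (h2 : n < st w a (j + 1)) : bl w a n = j := by
  obtain ⟨h3, h4⟩ := bl_spec h n
  apply le_antisymm
  · by_contra h5
    have := (st_mono h).monotone (show j + 1 ≤ bl w a n by omega)
    omega
  · by_contra h5
    have := (st_mono h).monotone (show bl w a n + 1 ≤ j by omega)
    omega

end Pool.Agent.W2helper9.AN
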