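import Pool.Agent.W2helper9.AN.Rot
import Pool.Agent.W2helper9.AN.Op

/-!
The two-sided lemma.
-/

set_option autoImplicit false
set_option linter.unusedSectionVars false

namespace Pool.Agent.W2helper9.AN

open scoped InnerProductSpace
open ContinuousLinearMap

abbrev KZ : Type := lp (fun _ : ℤ => ℂ) 2

noncomputable def fz (m : ℤ) : KZ := lp.single 2 m (1 : ℂ)

theorem fz_orth : Orthonormal ℂ fz := by
  constructor
  · intro m
    unfold fz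
    rw [lp.norm_single (by norm_num)]
    simp
  · intro m n hmn
    unfold fz
    rw [lp.inner_single_left, lp.single_apply_ne _ _ _ hmn]
    simp

theorem two_sided (w : ℤ → ℝ) (hw : ∀ q, 0 ≤ w q) (C : ℝ) (hC : ∀ q, w q ≤ C)
    (hs : Summable (fun q => |w (q + 1) ^ 2 - w q ^ 2|)) (ε : ℝ) (hε : 0 < ε) :
    ∃ (L : KZ →L[ℂ] KZ) (ψ : ℤ → KZ), adjoint L = L ∧ ‖L‖ ≤ C ∧ (∀ q, ‖ψ q‖ = 1) ∧ ψ 0 = fz 0 ∧
      Summable (fun q => ‖L (ψ q) - (w q : ℂ) • ψ q‖ ^ 2) ∧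
      Summable (fun q => w q ^ 2 * ‖ψ (q + 1) - ψ q‖ ^ 2) ∧
      ∑' q, ‖L (ψ q) - (w q : ℂ) • ψ q‖ ^ 2 ≤ 64 * (∑' q, |w (q + 1) ^ 2 - w q ^ 2| + ε) ∧
      ∑' q, w q ^ 2 * ‖ψ (q + 1) - ψ q‖ ^ 2 ≤ 64 * (∑' q, |w (q + 1) ^ 2 - w q ^ 2| + ε) := by
  have hC0 : 0 ≤ C := (hw 0).trans (hC 0)
  -- the two one-sided sequences
  set w1 : ℕ → ℝ := fun n => w n with hw1
  set w2 : ℕ → ℝ := fun n => w (-(n : ℤ)) with hw2
  set a1 : ℕ → ℝ := fun n => |w ((n : ℤ) + 1) ^ 2 - w n ^ 2| + ε / 2 / 2 / 2 ^ n with ha1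
  set a2 : ℕ → ℝ := fun n => |w (-((n : ℤ) + 1)) ^ 2 - w (-(n : ℤ)) ^ 2| + ε / 2 / 2 / 2 ^ n with ha2
  have H1 : Hyp w1 a1 := by
    refine ⟨fun n => hw _, fun n => by positivity, fun n => ?_⟩
    simp only [hw1, ha1]
    push_cast
    have : (0 : ℝ) ≤ ε / 2 / 2 / 2 ^ n := by positivity
    linarith
  have H2 : Hyp w2 a2 := by
    refine ⟨fun n => hw _, fun n => by positivity, fun n => ?_⟩
    simp only [hw2, ha2]
    push_cast
    have : (0 : ℝ) ≤ ε / 2 / 2 / 2 ^ n := by positivity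
    linarith
  set D : ℤ → ℝ := fun q => |w (q + 1) ^ 2 - w q ^ 2| with hD
  have hD2 : ∀ n : ℕ, |w (-((n : ℤ) + 1)) ^ 2 - w (-(n : ℤ)) ^ 2| = D (-((n : ℤ) + 1)) := by
    intro n
    simp only [hD]
    rw [abs_sub_comm]
    congr 3
    ring_nf
  have hDs1 : Summable (fun n : ℕ => D n) := hs.comp_injective Nat.cast_injective
  have hDs2 : Summable (fun n : ℕ => D (-((n : ℤ) + 1))) :=
    hs.comp_injective (i := fun n : ℕ => -((n : ℤ) + 1)) (by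
      intro m n hmn
      have : (m : ℤ) = n := by simpa using hmn
      exact_mod_cast this)
  have hg := hasSum_geometric_two' (ε / 2)
  have S1 : Summable a1 := hDs1.add hg.summable
  have S2 : Summable a2 := by
    refine (hDs2.add hg.summable).congr fun n => ?_
    simp only [ha2]
    rw [hD2]
  have T1 : ∑' n, a1 n = ∑' n : ℕ, D n + ε / 2 := by
    rw [← hg.tsum_eq, ← hDs1.tsum_add hg.summable]
  have T2 : ∑' n, a2 n = ∑' n : ℕ, D (-((n : ℤ) + 1)) + ε / 2 := by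
    rw [← hg.tsum_eq, ← hDs2.tsum_add hg.summable]
    apply tsum_congr
    intro n
    simp only [ha2]
    rw [hD2]
  have T3 : ∑' q, D q = ∑' n : ℕ, D n + ∑' n : ℕ, D (-((n : ℤ) + 1)) := by
    exact tsum_of_nat_of_neg_add_one hDs1 hDs2
  have hf1 : Orthonormal ℂ (fun j : ℕ => fz (j : ℤ)) := fz_orth.comp _ Nat.cast_injective
  have hf2 : Orthonormal ℂ (fun j : ℕ => fz (-(j : ℤ))) := fz_orth.comp _ (by
    intro m n hmn
    have : (m : ℤ) = n := by simpa using hmn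
    exact_mod_cast this)
  -- the eigenvalues
  set lam : ℤ → ℝ := fun m => if 0 ≤ m then w1 (st w1 a1 m.toNat) else w2 (st w2 a2 (-m).toNat) with hlam
  have hlam0 : ∀ m, 0 ≤ lam m := by
    intro m; simp only [hlam]; split_ifs
    · exact hw _
    · exact hw _
  have hlamC : ∀ m, lam m ≤ C := by
    intro m; simp only [hlam]; split_ifs
    · exact hC _
    · exact hC _
  have hB : ∀ m, ‖((lam m : ℝ) : ℂ) • ContinuousLinearMap.id ℂ ℂ‖ ≤ C := by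
    intro m
    rw [norm_smul, Complex.norm_real, Real.norm_eq_abs, abs_of_nonneg (hlam0 m)]
    have : ‖ContinuousLinearMap.id ℂ ℂ‖ ≤ 1 := norm_id_le
    nlinarith [hlam0 m, hlamC m]
  set L : KZ →L[ℂ] KZ := wop (Equiv.refl ℤ) (fun m => ((lam m : ℝ) : ℂ) • ContinuousLinearMap.id ℂ ℂ) C hC0 hB
    with hL
  have hLf : ∀ m, L (fz m) = ((lam m : ℝ) : ℂ) • fz m := by
    intro m
    rw [hL, fz, wop_single, ← lp.single_smul]
    rfl
  have hLadj : adjoint L = L := by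
    ext a y
    rw [hL, wop_adjoint_apply, wop_apply]
    have h1 : adjoint (((lam y : ℝ) : ℂ) • ContinuousLinearMap.id ℂ ℂ) =
        ((lam y : ℝ) : ℂ) • ContinuousLinearMap.id ℂ ℂ := by
      symm
      rw [eq_adjoint_iff]
      intro x z
      show ⟪((lam y : ℝ) : ℂ) • x, z⟫_ℂ = ⟪x, ((lam y : ℝ) : ℂ) • z⟫_ℂ
      rw [inner_smul_left, inner_smul_right, Complex.conj_ofReal]
    rw [h1]
    rfl
  have hLn : ‖L‖ ≤ C := LinearMap.mkContinuous_norm_le _ hC0 _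
  have hL1 : ∀ j : ℕ, L (fz (j : ℤ)) = ((w1 (st w1 a1 j) : ℝ) : ℂ) • fz (j : ℤ) := by
    intro j
    rw [hLf]
    simp [hlam]
  have hL2 : ∀ j : ℕ, L (fz (-(j : ℤ))) = ((w2 (st w2 a2 j) : ℝ) : ℂ) • fz (-(j : ℤ)) := by
    intro j
    rw [hLf]
    congr 2
    simp only [hlam]
    rcases Nat.eq_zero_or_pos j with h0 | h0
    · subst h0
      simp [st, hw1, hw2]
    · rw [if_neg (by omega)]
      simp
  obtain ⟨p1, p2, p3, p4⟩ := one_sided H1 hf1 L hL1 S1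
  obtain ⟨r1, r2, r3, r4⟩ := one_sided H2 hf2 L hL2 S2
  set ψ1 := psi w1 a1 (fun j : ℕ => fz (j : ℤ)) with hψ1
  set ψ2 := psi w2 a2 (fun j : ℕ => fz (-(j : ℤ))) with hψ2
  set ψ : ℤ → KZ := fun q => if 0 ≤ q then ψ1 q.toNat else ψ2 (-q).toNat with hψ
  have e0 : ψ1 0 = fz 0 := psi_zero H1 _
  have e0' : ψ2 0 = fz 0 := psi_zero H2 _
  have eψ1 : ∀ n : ℕ, ψ n = ψ1 n := by intro n; simp [hψ]
  have eψ2 : ∀ n : ℕ, ψ (-(n : ℤ)) = ψ2 n := by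
    intro n
    rcases Nat.eq_zero_or_pos n with h0 | h0
    · subst h0
      simp only [hψ]
      simp [e0, e0']
    · simp only [hψ]
      rw [if_neg (by omega)]
      simp
  have c1 : ∀ n : ℕ, ‖L (ψ n) - ((w n : ℝ) : ℂ) • ψ n‖ ^ 2 =
      cs w1 a1 (fun j : ℕ => fz (j : ℤ)) L n := by
    intro n
    rw [eψ1]
    rfl
  have c2 : ∀ n : ℕ, ‖L (ψ (-((n : ℤ) + 1))) - ((w (-((n : ℤ) + 1)) : ℝ) : ℂ) • ψ (-((n : ℤ) + 1))‖ ^ 2 =
      cs w2 a2 (fun j : ℕ => fz (-(j : ℤ))) L (n + 1) := by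
    intro n
    have := eψ2 (n + 1)
    push_cast at this
    rw [this]
    unfold cs
    simp only [hw2]
    push_cast
    rfl
  have d1 : ∀ n : ℕ, w n ^ 2 * ‖ψ ((n : ℤ) + 1) - ψ n‖ ^ 2 = cr w1 a1 (fun j : ℕ => fz (j : ℤ)) n := by
    intro n
    have := eψ1 (n + 1)
    push_cast at this
    rw [this, eψ1]
    rfl
  have hn2 : ∀ n, ‖ψ2 n‖ = 1 := fun n => psi_norm hf2 n
  have d2 : ∀ n : ℕ, w (-((n : ℤ) + 1)) ^ 2 * ‖ψ (-((n : ℤ) + 1) + 1) - ψ (-((n : ℤ) + 1))‖ ^ 2 ≤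
      cr w2 a2 (fun j : ℕ => fz (-(j : ℤ))) n + 4 * a2 n := by
    intro n
    have h1 := eψ2 (n + 1)
    push_cast at h1
    have h2 : -((n : ℤ) + 1) + 1 = -(n : ℤ) := by ring
    rw [h1, h2, eψ2]
    have h3 : cr w2 a2 (fun j : ℕ => fz (-(j : ℤ))) n = w (-(n : ℤ)) ^ 2 * ‖ψ2 n - ψ2 (n + 1)‖ ^ 2 := by
      unfold cr
      rw [norm_sub_rev]
    rw [h3]
    have h4 := H2.d n
    simp only [hw2] at h4
    push_cast at h4
    have h5 := (abs_le.1 h4).2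
    have h6 : ‖ψ2 n - ψ2 (n + 1)‖ ≤ 2 := by
      have := norm_sub_le (ψ2 n) (ψ2 (n + 1))
      rw [hn2, hn2] at this
      linarith
    have h7 : ‖ψ2 n - ψ2 (n + 1)‖ ^ 2 ≤ 4 := by nlinarith [norm_nonneg (ψ2 n - ψ2 (n + 1))]
    have h8 := sq_nonneg (‖ψ2 n - ψ2 (n + 1)‖)
    have h9 := (H2.a0 n).le
    nlinarith
  have d3 : Summable (fun n : ℕ => cr w2 a2 (fun j : ℕ => fz (-(j : ℤ))) n + 4 * a2 n) :=
    r2.add (S2.mul_left 4)
  have d4 : Summable (fun n : ℕ => w (-((n : ℤ) + 1)) ^ 2 *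
      ‖ψ (-((n : ℤ) + 1) + 1) - ψ (-((n : ℤ) + 1))‖ ^ 2) :=
    Summable.of_nonneg_of_le (fun n => by positivity) d2 d3
  have d5 := d4.tsum_le_tsum d2 d3
  rw [r2.tsum_add (S2.mul_left 4), tsum_mul_left] at d5
  have q1 : Summable (fun n : ℕ => ‖L (ψ n) - ((w n : ℝ) : ℂ) • ψ n‖ ^ 2) := by
    refine p1.congr fun n => (c1 n).symm
  have q2 : Summable (fun n : ℕ => ‖L (ψ (-((n : ℤ) + 1))) -
      ((w (-((n : ℤ) + 1)) : ℝ) : ℂ) • ψ (-((n : ℤ) + 1))‖ ^ 2) := by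
    refine ((summable_nat_add_iff 1).2 r1).congr fun n => (c2 n).symm
  have q3 : Summable (fun n : ℕ => w n ^ 2 * ‖ψ ((n : ℤ) + 1) - ψ n‖ ^ 2) := by
    refine p2.congr fun n => (d1 n).symm
  have q4 : ∑' n : ℕ, ‖L (ψ (-((n : ℤ) + 1))) -
      ((w (-((n : ℤ) + 1)) : ℝ) : ℂ) • ψ (-((n : ℤ) + 1))‖ ^ 2 ≤
      ∑' n, cs w2 a2 (fun j : ℕ => fz (-(j : ℤ))) L n := by
    have h1 := r1.tsum_eq_zero_add
    have h2 : 0 ≤ cs w2 a2 (fun j : ℕ => fz (-(j : ℤ))) L 0 := by unfold cs; positivity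
    have h3 : ∑' n : ℕ, ‖L (ψ (-((n : ℤ) + 1))) -
      ((w (-((n : ℤ) + 1)) : ℝ) : ℂ) • ψ (-((n : ℤ) + 1))‖ ^ 2 =
      ∑' n, cs w2 a2 (fun j : ℕ => fz (-(j : ℤ))) L (n + 1) := tsum_congr c2
    rw [h3]; linarith
  have hD1 : 0 ≤ ∑' n : ℕ, D n := tsum_nonneg fun n => abs_nonneg _
  have hD2' : 0 ≤ ∑' n : ℕ, D (-((n : ℤ) + 1)) := tsum_nonneg fun n => abs_nonneg _
  refine ⟨L, ψ, hLadj, hLn, ?_, ?_, ?_, ?_, ?_, ?_⟩
  · intro q
    simp only [hψ]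
    split_ifs
    · exact psi_norm hf1 _
    · exact psi_norm hf2 _
  · have := eψ1 0
    simp only [Nat.cast_zero] at this
    rw [this, e0]
  · exact Summable.of_nat_of_neg_add_one q1 q2
  · exact Summable.of_nat_of_neg_add_one q3 d4
  · have h1 : ∑' q, ‖L (ψ q) - (w q : ℂ) • ψ q‖ ^ 2 = _ :=
      tsum_of_nat_of_neg_add_one (f := fun q => ‖L (ψ q) - (w q : ℂ) • ψ q‖ ^ 2) q1 q2
    have h2 : ∑' n : ℕ, ‖L (ψ n) - ((w n : ℝ) : ℂ) • ψ n‖ ^ 2 = _ := tsum_congr c1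
    rw [h1, h2, T3]
    rw [T1] at p3
    rw [T2] at r3
    linarith
  · have h1 : ∑' q, w q ^ 2 * ‖ψ (q + 1) - ψ q‖ ^ 2 = _ :=
      tsum_of_nat_of_neg_add_one (f := fun q => w q ^ 2 * ‖ψ (q + 1) - ψ q‖ ^ 2) q3 d4
    have h2 : ∑' n : ℕ, w n ^ 2 * ‖ψ ((n : ℤ) + 1) - ψ n‖ ^ 2 = _ := tsum_congr d1
    rw [h1, h2, T3]
    rw [T1] at p4
    rw [T2] at r4 d5
    linarith

end Pool.Agent.W2helper9.AN
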